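import Mathlib

set_option autoImplicit false

open Cardinal Topology

namespace Pool.Agent.CpUniv

/-- The topology of pointwise convergence on the set `C(X, ℝ)` of continuous real-valued
functions: the subspace topology from the product `X → ℝ`. So `C(X, ℝ)` with this topology
is the space `C_p(X)`. -/
@[reducible] def cpTopology (X : Type) [TopologicalSpace X] : TopologicalSpace C(X, ℝ) :=
  TopologicalSpace.induced (fun f : C(X, ℝ) => (f : X → ℝ)) Pi.topologicalSpace

/-- The weight of a topological space: the least cardinality of a base. -/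
noncomputable def weight (X : Type) [TopologicalSpace X] : Cardinal.{0} :=
  sInf {c : Cardinal.{0} | ∃ B : Set (Set X), TopologicalSpace.IsTopologicalBasis B ∧ #B = c}

/-- `φ` is continuous from `C_p(X)` to `C_p(Y)`, that is, for the topologies of pointwise
convergence. -/
def IsCpContinuous {X Y : Type} [TopologicalSpace X] [TopologicalSpace Y]
    (φ : C(X, ℝ) → C(Y, ℝ)) : Prop :=
  @Continuous C(X, ℝ) C(Y, ℝ) (cpTopology X) (cpTopology Y) φ

/-- `φ` is an embedding of `C_p(X)` in `C_p(Y)`: a homeomorphism onto its image with respect to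
the topologies of pointwise convergence. -/
def IsCpEmbedding {X Y : Type} [TopologicalSpace X] [TopologicalSpace Y]
    (φ : C(X, ℝ) → C(Y, ℝ)) : Prop :=
  @Topology.IsEmbedding C(X, ℝ) C(Y, ℝ) (cpTopology X) (cpTopology Y) φ

/-- Club guessing for `ω`-sequences in the well-order `Θ`: there is a family, indexed by `Θ`, of
strictly increasing `ω`-sequences in `Θ` such that every closed unbounded subset of `Θ` contains
(the range of) one of them. -/
def ClubGuessing (Θ : Type) [LinearOrder Θ] : Prop :=
  ∃ L : Θ → ℕ → Θ, (∀ δ, StrictMono (L δ)) ∧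
    ∀ C : Set Θ, IsClub C → ∃ δ, ∀ n, L δ n ∈ C

/-- `cofSub μ lam` is `cof([μ]^{≤ lam}, ⊆)`: the least number of subsets of size at most `lam` of a
set of size `μ` such that every subset of size at most `lam` is contained in one of them. -/
noncomputable def cofSub (μ lam : Cardinal.{0}) : Cardinal.{0} :=
  sInf {c : Cardinal.{0} | ∃ P : Set (Set μ.out), #P = c ∧ (∀ S ∈ P, #S ≤ lam) ∧
    ∀ Q : Set μ.out, #Q ≤ lam → ∃ S ∈ P, Q ⊆ S}

/-- `non(M)`: the least cardinality of a nonmeagre subset of the Baire space `ℕ → ℕ`. -/
noncomputable def nonMeagre : Cardinal.{0} :=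
  sInf {c : Cardinal.{0} | ∃ N : Set (ℕ → ℕ), ¬ IsMeagre N ∧ #N = c}

end Pool.Agent.CpUniv
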