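import Mathlib
import Pool.Agent.CpUniv.Defs

set_option autoImplicit false

open Cardinal Topology

namespace Pool.Agent.CpUniv

/-- Finite agreement: if `φ` is continuous for pointwise convergence, `f₀` is a function and `w`
a point, then functions agreeing with `f₀` on a suitable finite set have `φ f w` close to
`φ f₀ w`. -/
theorem exists_finite_agree {X Y : Type} [TopologicalSpace X] [TopologicalSpace Y]
    {φ : C(X, ℝ) → C(Y, ℝ)} (hφ : IsCpContinuous φ) (f₀ : C(X, ℝ)) (w : Y) {ε : ℝ} (hε : 0 < ε) :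
    ∃ F : Finset X, ∀ f : C(X, ℝ), (∀ x ∈ F, f x = f₀ x) → |φ f w - φ f₀ w| < ε := by
  classical
  let _ := cpTopology X
  let _ := cpTopology Y
  have hev : Continuous (fun g : C(Y, ℝ) => g w) := by
    have h1 : Continuous (fun g : C(Y, ℝ) => (g : Y → ℝ)) := continuous_induced_dom
    exact (continuous_apply w).comp h1
  have hc : Continuous (fun f : C(X, ℝ) => φ f w) := hev.comp hφ
  have hU : {f : C(X, ℝ) | |φ f w - φ f₀ w| < ε} ∈ nhds f₀ := by
    have := (Metric.continuous_iff'.1 hc) f₀ ε hε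
    filter_upwards [this] with f hf
    simpa [Real.dist_eq] using hf
  have hn : nhds f₀ = Filter.comap (fun f : C(X, ℝ) => (f : X → ℝ)) (nhds (f₀ : X → ℝ)) :=
    nhds_induced _ _
  rw [hn, Filter.mem_comap] at hU
  obtain ⟨V, hV, hVU⟩ := hU
  rw [nhds_pi, Filter.mem_pi] at hV
  obtain ⟨I, hI, t, ht, hsub⟩ := hV
  refine ⟨hI.toFinset, fun f hf => ?_⟩
  apply hVU
  apply hsub
  intro x hx
  have hfx : f x = f₀ x := hf x (by simpa using hx)
  change f x ∈ t x
  rw [hfx]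
  exact mem_of_mem_nhds (ht x)

theorem IsCpEmbedding.injective {X Y : Type} [TopologicalSpace X] [TopologicalSpace Y]
    {φ : C(X, ℝ) → C(Y, ℝ)} (h : IsCpEmbedding φ) : Function.Injective φ := by
  let _ := cpTopology X
  let _ := cpTopology Y
  have h' : Topology.IsEmbedding φ := h
  exact h'.injective

theorem IsCpEmbedding.continuous {X Y : Type} [TopologicalSpace X] [TopologicalSpace Y]
    {φ : C(X, ℝ) → C(Y, ℝ)} (h : IsCpEmbedding φ) : IsCpContinuous φ := by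
  let _ := cpTopology X
  let _ := cpTopology Y
  have h' : Topology.IsEmbedding φ := h
  exact h'.continuous

/-- A base of minimal cardinality exists. -/
theorem exists_basis_card_eq_weight (X : Type) [TopologicalSpace X] :
    ∃ B : Set (Set X), TopologicalSpace.IsTopologicalBasis B ∧ #B = weight X := by
  have hne : {c : Cardinal.{0} | ∃ B : Set (Set X),
      TopologicalSpace.IsTopologicalBasis B ∧ #B = c}.Nonempty :=
    ⟨_, {U : Set X | IsOpen U}, TopologicalSpace.isTopologicalBasis_opens, rfl⟩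
  exact csInf_mem hne

theorem weight_le_of_basis {X : Type} [TopologicalSpace X] {B : Set (Set X)}
    (hB : TopologicalSpace.IsTopologicalBasis B) : weight X ≤ #B :=
  csInf_le' ⟨B, hB, rfl⟩

theorem cofSub_spec (μ lam : Cardinal.{0}) :
    ∃ P : Set (Set μ.out), #P = cofSub μ lam ∧ (∀ S ∈ P, #S ≤ lam) ∧
      ∀ Q : Set μ.out, #Q ≤ lam → ∃ S ∈ P, Q ⊆ S := by
  have hne : {c : Cardinal.{0} | ∃ P : Set (Set μ.out), #P = c ∧ (∀ S ∈ P, #S ≤ lam) ∧
      ∀ Q : Set μ.out, #Q ≤ lam → ∃ S ∈ P, Q ⊆ S}.Nonempty :=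
    ⟨_, {S | #S ≤ lam}, rfl, fun S hS => hS, fun Q hQ => ⟨Q, hQ, subset_rfl⟩⟩
  exact csInf_mem hne

theorem nonMeagre_spec : ∃ N : Set (ℕ → ℕ), ¬ IsMeagre N ∧ #N = nonMeagre := by
  have hne : {c : Cardinal.{0} | ∃ N : Set (ℕ → ℕ), ¬ IsMeagre N ∧ #N = c}.Nonempty :=
    ⟨_, Set.univ, not_isMeagre_of_isOpen isOpen_univ Set.univ_nonempty, rfl⟩
  exact csInf_mem hne

/-- Transfer of a covering family to an arbitrary set. -/
theorem exists_cover {α : Type} {μ lam : Cardinal.{0}} (s : Set α) (hs : #s ≤ μ) :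
    ∃ (P : Type) (F : P → Set α), #P = cofSub μ lam ∧ (∀ p, #(F p) ≤ lam) ∧
      ∀ Q ⊆ s, #Q ≤ lam → ∃ p, Q ⊆ F p := by
  classical
  obtain ⟨P, hP1, hP2, hP3⟩ := cofSub_spec μ lam
  have h1 : #s ≤ #μ.out := by rwa [mk_out]
  obtain ⟨j⟩ := h1
  refine ⟨P, fun p => {x | ∃ h : x ∈ s, j ⟨x, h⟩ ∈ p.1}, hP1, fun p => ?_, fun Q hQ hQc => ?_⟩
  · refine le_trans ?_ (hP2 p.1 p.2)
    refine mk_le_of_injective (f := fun x : {x | ∃ h : x ∈ s, j ⟨x, h⟩ ∈ p.1} =>
      (⟨j ⟨x.1, x.2.choose⟩, x.2.choose_spec⟩ : p.1)) ?_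
    intro x y hxy
    have h5 : j ⟨x.1, x.2.choose⟩ = j ⟨y.1, y.2.choose⟩ := congrArg Subtype.val hxy
    have h6 := j.injective h5
    have h7 : x.1 = y.1 := congrArg (fun z : s => z.1) h6
    exact Subtype.ext h7
  · obtain ⟨S, hS, hSsub⟩ := hP3 (Set.range fun x : Q => j ⟨x.1, hQ x.2⟩)
      (mk_range_le.trans hQc)
    exact ⟨⟨S, hS⟩, fun x hx => ⟨hQ hx, hSsub ⟨⟨x, hx⟩, rfl⟩⟩⟩

end Pool.Agent.CpUniv
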