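import Mathlib
import Pool.Agent.CpUniv.Defs

set_option autoImplicit false

open Cardinal Order Set

namespace Pool.Agent.CpUniv

section Basic

variable {Θ : Type} [LinearOrder Θ] [WellFoundedLT Θ]

omit [WellFoundedLT Θ] in
/-- In a linear order, a set smaller than the cofinality is bounded (strictly, if there is no
maximum). -/
theorem exists_bound_of_lt_cof [NoMaxOrder Θ] {s : Set Θ} (hs : #s < Order.cof Θ) :
    ∃ b, ∀ a ∈ s, a < b := by
  have h1 : ¬ IsCofinal s := fun h => (Order.cof_le h).not_gt hs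
  rw [not_isCofinal_iff] at h1
  exact h1

/-- Least upper bounds of bounded sets exist in a well-order. -/
theorem exists_isLUB {s : Set Θ} (hs : ∃ b, ∀ a ∈ s, a ≤ b) : ∃ c, IsLUB s c := by
  obtain ⟨b, hb⟩ := hs
  have hne : (upperBounds s).Nonempty := ⟨b, fun a ha => hb a ha⟩
  refine ⟨WellFounded.min (wellFounded_lt (α := Θ)) (upperBounds s) hne, ?_, ?_⟩
  · exact WellFounded.min_mem _ _ _
  · intro c hc
    exact not_lt.1 (WellFounded.not_lt_min (wellFounded_lt (α := Θ)) _ hc)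

/-- The largest element of `E` below `x` (if there is one). -/
noncomputable def floorIn (E : Set Θ) (x : Θ) : Θ :=
  WellFounded.min (wellFounded_lt (α := Θ)) {y | ∀ e ∈ E, e ≤ x → e ≤ y} ⟨x, fun _ _ h => h⟩

theorem le_floorIn {E : Set Θ} {x e : Θ} (he : e ∈ E) (hx : e ≤ x) : e ≤ floorIn E x :=
  WellFounded.min_mem (wellFounded_lt (α := Θ)) {y | ∀ e ∈ E, e ≤ x → e ≤ y}
    ⟨x, fun _ _ h => h⟩ e he hx

theorem floorIn_le_of {E : Set Θ} {x y : Θ} (h : ∀ e ∈ E, e ≤ x → e ≤ y) : floorIn E x ≤ y :=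
  not_lt.1 (WellFounded.not_lt_min (wellFounded_lt (α := Θ))
    {y | ∀ e ∈ E, e ≤ x → e ≤ y} (x := y) h)

theorem floorIn_le (E : Set Θ) (x : Θ) : floorIn E x ≤ x :=
  floorIn_le_of fun _ _ h => h

theorem floorIn_anti {E E' : Set Θ} (h : E' ⊆ E) (x : Θ) : floorIn E' x ≤ floorIn E x :=
  floorIn_le_of fun _ he hx => le_floorIn (h he) hx

theorem isLUB_floorIn (E : Set Θ) (x : Θ) : IsLUB (E ∩ Iic x) (floorIn E x) :=
  ⟨fun _ he => le_floorIn he.1 he.2, fun _ hy => floorIn_le_of fun _ he hx => hy ⟨he, hx⟩⟩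

theorem floorIn_mem {E : Set Θ} (hE : IsClub E) {x : Θ} (h : ∃ y, y < floorIn E x) :
    floorIn E x ∈ E := by
  refine hE.isLUB_mem (t := E ∩ Iic x) inter_subset_left ?_ (isLUB_floorIn E x)
  by_contra hemp
  rw [not_nonempty_iff_eq_empty] at hemp
  obtain ⟨y, hy⟩ := h
  have : floorIn E x ≤ y := floorIn_le_of fun e he hx => by
    have : e ∈ E ∩ Iic x := ⟨he, hx⟩
    rw [hemp] at this
    exact this.elim
  exact absurd hy this.not_gt

end Basic

section Guess

variable {Θ : Type} [LinearOrder Θ] [WellFoundedLT Θ] [NoMaxOrder Θ] [Nonempty Θ]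

/-- The point `δ` is a limit of an increasing `ω`-sequence. -/
def HasSeq (δ : Θ) : Prop :=
  ∃ c : ℕ → Θ, StrictMono c ∧ (∀ n, c n < δ) ∧ ∀ β < δ, ∃ n, β < c n

open Classical in
/-- A fixed cofinal sequence in `δ`, if there is one. -/
noncomputable def ladder (δ : Θ) : ℕ → Θ :=
  if h : HasSeq δ then h.choose else (Nat.exists_strictMono Θ).choose

omit [WellFoundedLT Θ] in
theorem ladder_spec {δ : Θ} (h : HasSeq δ) :
    StrictMono (ladder δ) ∧ (∀ n, ladder δ n < δ) ∧ ∀ β < δ, ∃ n, β < ladder δ n := by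
  unfold ladder
  rw [dif_pos h]
  exact h.choose_spec

/-- The set of nontrivial floors of the ladder points. -/
def floorSet (E : Set Θ) (δ : Θ) : Set Θ :=
  {y | ∃ n, y = floorIn E (ladder δ n) ∧ ∃ z, z < floorIn E (ladder δ n)}

open Classical in
/-- A strictly increasing sequence inside `floorSet E δ`, if there is one. -/
noncomputable def ladderIn (E : Set Θ) (δ : Θ) : ℕ → Θ :=
  if h : ∃ c : ℕ → Θ, StrictMono c ∧ ∀ n, c n ∈ floorSet E δ then h.choose
  else (Nat.exists_strictMono Θ).choose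

theorem ladderIn_strictMono (E : Set Θ) (δ : Θ) : StrictMono (ladderIn E δ) := by
  unfold ladderIn
  split_ifs with h
  · exact h.choose_spec.1
  · exact (Nat.exists_strictMono Θ).choose_spec

theorem ladderIn_mem {E : Set Θ} {δ : Θ}
    (h : ∃ c : ℕ → Θ, StrictMono c ∧ ∀ n, c n ∈ floorSet E δ) (n : ℕ) :
    ladderIn E δ n ∈ floorSet E δ := by
  unfold ladderIn
  rw [dif_pos h]
  exact h.choose_spec.2 n

/-- If `E` is cofinal below `δ`, there is a strictly increasing sequence in `floorSet E δ`. -/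
theorem exists_seq_floorSet {E : Set Θ} {δ : Θ} (hδ : HasSeq δ)
    (hE : ∀ β < δ, ∃ e ∈ E, β < e ∧ e < δ) :
    ∃ c : ℕ → Θ, StrictMono c ∧ ∀ n, c n ∈ floorSet E δ := by
  obtain ⟨_, h2, h3⟩ := ladder_spec hδ
  have key : ∀ β < δ, ∃ y ∈ floorSet E δ, β < y := by
    intro β hβ
    obtain ⟨e, heE, hβe, heδ⟩ := hE β hβ
    obtain ⟨n, hn⟩ := h3 e heδ
    have h4 : e ≤ floorIn E (ladder δ n) := le_floorIn heE hn.le
    exact ⟨floorIn E (ladder δ n), ⟨n, rfl, β, hβe.trans_le h4⟩, hβe.trans_le h4⟩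
  have hlt : ∀ y ∈ floorSet E δ, y < δ := by
    rintro y ⟨n, rfl, _⟩
    exact (floorIn_le _ _).trans_lt (h2 n)
  have hne : Nonempty (floorSet E δ) := by
    obtain ⟨y, hy, _⟩ := key (ladder δ 0) (h2 0)
    exact ⟨⟨y, hy⟩⟩
  have hno : NoMaxOrder (floorSet E δ) := by
    refine ⟨fun a => ?_⟩
    obtain ⟨y, hy, hay⟩ := key a.1 (hlt a.1 a.2)
    exact ⟨⟨y, hy⟩, hay⟩
  obtain ⟨c, hc⟩ := Nat.exists_strictMono (floorSet E δ)
  exact ⟨fun n => (c n : Θ), fun a b hab => hc hab, fun n => (c n).2⟩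

/-- **Club guessing** (Shelah) for `ω`-sequences: if the cofinality of the well-order `Θ` is
bigger than `ℵ₁`, there is a family, indexed by `Θ`, of strictly increasing `ω`-sequences
in `Θ` such that every club set contains (the range of) one of them. -/
theorem club_guessing (hcof : ℵ₁ < Order.cof Θ) : ClubGuessing Θ := by
  classical
  unfold ClubGuessing
  have hcof0 : ℵ₀ < Order.cof Θ := aleph0_lt_aleph_one.trans hcof
  by_contra hcon
  push Not at hcon
  have hcon' : ∀ E : Set Θ, ∃ C : Set Θ, IsClub C ∧ ∀ δ, ∃ n, ladderIn E δ n ∉ C :=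
    fun E => hcon (ladderIn E) (ladderIn_strictMono E)
  choose nx hnx1 hnx2 using hcon'
  -- the index type `ω₁`
  let I := (Cardinal.ord.{0} ℵ₁).ToType
  have hIcard : #I = ℵ₁ := mk_ord_toType _
  have hIcof : Order.cof I = ℵ₁ := by
    simp only [I]
    rw [Ordinal.cof_toType]
    exact isRegular_aleph_one.cof_ord
  have hIcount : ∀ ξ : I, Countable {ζ : I // ζ < ξ} := by
    intro ξ
    have h1 : #(Iio ξ) < ℵ₁ := mk_Iio_toType_ord_lt ξ
    rw [← mk_le_aleph0_iff]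
    have h1' : #(Iio ξ) < succ ℵ₀ := by rw [succ_aleph0]; exact h1
    exact Order.lt_succ_iff.1 h1'
  let Efun : I → Set Θ := WellFounded.fix (wellFounded_lt (α := I))
    (fun ξ ih => ⋂ (ζ : {ζ : I // ζ < ξ}), nx (ih ζ.1 ζ.2))
  have hEfun : ∀ ξ, Efun ξ = ⋂ (ζ : {ζ : I // ζ < ξ}), nx (Efun ζ.1) := by
    intro ξ
    exact WellFounded.fix_eq _ _ ξ
  have hEanti : ∀ ζ ξ : I, ζ ≤ ξ → Efun ξ ⊆ Efun ζ := by
    intro ζ ξ hζξ
    rw [hEfun ζ, hEfun ξ]
    intro x hx
    rw [mem_iInter] at hx ⊢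
    intro z
    exact hx ⟨z.1, z.2.trans_le hζξ⟩
  have hEsub : ∀ ζ ξ : I, ζ < ξ → Efun ξ ⊆ nx (Efun ζ) := by
    intro ζ ξ hζξ
    rw [hEfun ξ]
    exact iInter_subset (fun z : {ζ : I // ζ < ξ} => nx (Efun z.1)) ⟨ζ, hζξ⟩
  have hEclub : ∀ ξ, IsClub (Efun ξ) := by
    intro ξ
    rw [hEfun ξ]
    have := hIcount ξ
    exact IsClub.iInter_of_countable hcof0.ne' fun z => hnx1 _
  have hEinf : IsClub (⋂ ξ, Efun ξ) := by
    refine IsClub.iInter hcof0.ne' ?_ hEclub
    rw [hIcard]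
    simpa using hcof
  -- an increasing sequence in the intersection
  have hno : NoMaxOrder (⋂ ξ, Efun ξ : Set Θ) := by
    refine ⟨fun a => ?_⟩
    obtain ⟨b, hb⟩ := exists_gt a.1
    obtain ⟨c, hc, hbc⟩ := hEinf.isCofinal b
    exact ⟨⟨c, hc⟩, hb.trans_le hbc⟩
  have hne : Nonempty (⋂ ξ, Efun ξ : Set Θ) := hEinf.nonempty.to_subtype
  obtain ⟨e, he⟩ := Nat.exists_strictMono (⋂ ξ, Efun ξ : Set Θ)
  have hbd : ∃ b, ∀ a ∈ range (fun n => (e n : Θ)), a ≤ b := by
    obtain ⟨b, hb⟩ := exists_bound_of_lt_cof (s := range (fun n => (e n : Θ)))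
      ((mk_range_le.trans (by simp)).trans_lt hcof0)
    exact ⟨b, fun a ha => (hb a ha).le⟩
  obtain ⟨δ, hδ⟩ := exists_isLUB hbd
  have heδ : ∀ n, (e n : Θ) < δ := fun n =>
    lt_of_lt_of_le (show (e n : Θ) < e (n + 1) from he (Nat.lt_succ_self n)) (hδ.1 ⟨n + 1, rfl⟩)
  have hcofδ : ∀ β < δ, ∃ n, β < (e n : Θ) := by
    intro β hβ
    by_contra hcon2
    push Not at hcon2
    have : δ ≤ β := hδ.2 (by rintro _ ⟨n, rfl⟩; exact hcon2 n)
    exact absurd hβ this.not_gt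
  have hHas : HasSeq δ := ⟨fun n => (e n : Θ), fun a b hab => he hab, heδ, hcofδ⟩
  -- stabilisation of the floors
  have hstab : ∀ n : ℕ, ∃ ξ : I, ∀ ξ' : I, ξ ≤ ξ' →
      floorIn (Efun ξ') (ladder δ n) = floorIn (Efun ξ) (ladder δ n) := by
    intro n
    have hneI : Nonempty I := by
      rw [← mk_ne_zero_iff, hIcard]
      exact (aleph_pos 1).ne'
    let R : Set Θ := range fun ξ : I => floorIn (Efun ξ) (ladder δ n)
    have hR : R.Nonempty := range_nonempty _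
    obtain ⟨ξ, hξ⟩ := WellFounded.min_mem (wellFounded_lt (α := Θ)) R hR
    refine ⟨ξ, fun ξ' hξ' => le_antisymm (floorIn_anti (hEanti _ _ hξ') _) ?_⟩
    have := WellFounded.not_lt_min (wellFounded_lt (α := Θ)) R
      (x := floorIn (Efun ξ') (ladder δ n)) ⟨ξ', rfl⟩
    rw [← hξ] at this
    exact not_lt.1 this
  choose ξs hξs using hstab
  have hneI : Nonempty I := ⟨ξs 0⟩
  have hInomax : NoMaxOrder I := by
    refine ⟨fun a => ?_⟩
    by_contra hmax
    push Not at hmax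
    have hct : Countable I := by
      have := hIcount a
      have h3 : (univ : Set I) ⊆ {ζ : I | ζ < a} ∪ {a} := by
        intro z _
        rcases (hmax z).lt_or_eq with h | h
        · exact Or.inl h
        · exact Or.inr h
      have h4 : ({ζ : I | ζ < a} ∪ {a}).Countable :=
        (Set.countable_coe_iff.1 this).union (countable_singleton a)
      exact countable_univ_iff.1 (h4.mono h3)
    rw [← mk_le_aleph0_iff, hIcard] at hct
    exact absurd hct (not_le.2 aleph0_lt_aleph_one)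
  obtain ⟨ξ0, hξ0⟩ := exists_bound_of_lt_cof (s := range ξs)
    (by rw [hIcof]; exact (mk_range_le.trans (by simp)).trans_lt aleph0_lt_aleph_one)
  obtain ⟨ξ1, hξ1⟩ := exists_gt ξ0
  have hfl : ∀ n, floorIn (Efun ξ1) (ladder δ n) = floorIn (Efun ξ0) (ladder δ n) := by
    intro n
    have h5 := hξ0 _ ⟨n, rfl⟩
    rw [hξs n ξ1 (h5.trans hξ1).le, hξs n ξ0 h5.le]
  obtain ⟨k, hk⟩ := hnx2 (Efun ξ0) δ
  apply hk
  have hex : ∃ c : ℕ → Θ, StrictMono c ∧ ∀ n, c n ∈ floorSet (Efun ξ0) δ := by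
    refine exists_seq_floorSet hHas fun β hβ => ?_
    obtain ⟨n, hn⟩ := hcofδ β hβ
    exact ⟨e n, mem_iInter.1 (e n).2 ξ0, hn, heδ n⟩
  obtain ⟨n, hn1, hn2⟩ := ladderIn_mem hex k
  rw [hn1, ← hfl n]
  apply hEsub ξ0 ξ1 hξ1
  apply floorIn_mem (hEclub ξ1)
  rw [hfl n]
  exact hn2

end Guess

end Pool.Agent.CpUniv
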