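import Mathlib
import Pool.Agent.CpUniv.Basic
import Pool.Agent.CpUniv.Club

set_option autoImplicit false

open Cardinal Order Set

namespace Pool.Agent.CpUniv

/-- An upper bound for `cofSub` from a covering family on any set of the right size. -/
theorem cofSub_le_of_cover {α P : Type} {μ lam : Cardinal.{0}} (hα : #α = μ) (F : P → Set α)
    (h1 : ∀ p, #(F p) ≤ lam) (h2 : ∀ Q : Set α, #Q ≤ lam → ∃ p, Q ⊆ F p) :
    cofSub μ lam ≤ #P := by
  have h3 : #α = #μ.out := by rw [hα, mk_out]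
  obtain ⟨e⟩ := Cardinal.eq.1 h3
  refine (csInf_le' (s := {c : Cardinal.{0} | ∃ P : Set (Set μ.out), #P = c ∧
    (∀ S ∈ P, #S ≤ lam) ∧ ∀ Q : Set μ.out, #Q ≤ lam → ∃ S ∈ P, Q ⊆ S})
    ⟨range fun p => e '' F p, rfl, ?_, ?_⟩).trans mk_range_le
  · rintro _ ⟨p, rfl⟩
    exact mk_image_le.trans (h1 p)
  · intro Q hQ
    obtain ⟨p, hp⟩ := h2 (e.symm '' Q) (mk_image_le.trans hQ)
    refine ⟨e '' F p, ⟨p, rfl⟩, fun x hx => ?_⟩
    exact ⟨e.symm x, hp ⟨x, hx, rfl⟩, by simp⟩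

theorem cofSub_le_one {μ lam : Cardinal.{0}} (h : μ ≤ lam) : cofSub μ lam ≤ 1 := by
  have := cofSub_le_of_cover (α := μ.out) (P := Unit) (mk_out μ) (fun _ => Set.univ)
    (lam := lam) (fun _ => by rw [mk_univ, mk_out]; exact h) (fun Q _ => ⟨(), subset_univ Q⟩)
  simpa using this

theorem cofSub_succ_le {μ lam : Cardinal.{0}} (hμ : ℵ₀ ≤ μ) (hlam : lam ≤ μ) :
    cofSub (succ μ) lam ≤ succ μ * cofSub μ lam := by
  classical
  have hreg : (succ μ).IsRegular := isRegular_succ hμ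
  have hno : NoMaxOrder (succ μ).ord.ToType := Cardinal.noMaxOrder hreg.aleph0_le
  have hcof : Order.cof (succ μ).ord.ToType = succ μ := by
    rw [Ordinal.cof_toType]
    exact hreg.cof_ord
  have hIio : ∀ u : (succ μ).ord.ToType, #(Iio u) ≤ μ := fun u =>
    Order.lt_succ_iff.1 (mk_Iio_toType_ord_lt u)
  choose P F hP hF1 hF2 using fun u : (succ μ).ord.ToType =>
    exists_cover (lam := lam) (Iio u) (hIio u)
  have key := cofSub_le_of_cover (α := (succ μ).ord.ToType) (P := Σ u, P u) (lam := lam)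
    (mk_ord_toType _) (fun p => F p.1 p.2) (fun p => hF1 p.1 p.2) (by
      intro Q hQ
      have hlt : #Q < Order.cof (succ μ).ord.ToType := by
        rw [hcof]
        exact (hQ.trans hlam).trans_lt (Order.lt_succ μ)
      obtain ⟨u, hu⟩ := exists_bound_of_lt_cof hlt
      obtain ⟨p, hp⟩ := hF2 u Q (fun x hx => hu x hx) hQ
      exact ⟨⟨u, p⟩, hp⟩)
  refine key.trans ?_
  rw [mk_sigma]
  simp only [hP]
  rw [sum_const', mk_ord_toType]

/-- `cof([ℵ_m]^{≤ ℵ_n}, ⊆) ≤ ℵ_m` for natural numbers `m`, `n`. -/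
theorem cofSub_aleph_le (m : ℕ) (n : ℕ) : cofSub (ℵ_ m) (ℵ_ n) ≤ ℵ_ m := by
  induction m with
  | zero =>
    have : cofSub (ℵ_ ((0 : ℕ) : Ordinal)) (ℵ_ n) ≤ 1 := by
      apply cofSub_le_one
      simp
    exact this.trans (one_le_aleph0.trans (aleph0_le_aleph _))
  | succ k ih =>
    rcases le_or_gt (k + 1) n with h | h
    · have h1 : (ℵ_ ((k + 1 : ℕ) : Ordinal) : Cardinal.{0}) ≤ ℵ_ n := by
        rw [aleph_le_aleph]
        exact_mod_cast h
      exact (cofSub_le_one h1).trans (one_le_aleph0.trans (aleph0_le_aleph _))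
    · have h1 : (ℵ_ ((k + 1 : ℕ) : Ordinal) : Cardinal.{0}) = succ (ℵ_ k) := by
        rw [← aleph_succ]
        push_cast
        rfl
      have h2 : (ℵ_ n : Cardinal.{0}) ≤ ℵ_ k := by
        rw [aleph_le_aleph]
        exact_mod_cast Nat.lt_succ_iff.1 h
      rw [h1]
      refine (cofSub_succ_le (aleph0_le_aleph _) h2).trans ?_
      have h3 : ℵ₀ ≤ succ (ℵ_ k : Cardinal.{0}) := (aleph0_le_aleph _).trans (le_succ _)
      calc succ (ℵ_ k : Cardinal.{0}) * cofSub (ℵ_ k) (ℵ_ n) ≤ succ (ℵ_ k) * succ (ℵ_ k) :=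
            mul_le_mul' le_rfl (ih.trans (le_succ _))
        _ = succ (ℵ_ k) := mul_eq_self h3

/-- The countable covering property holds below `ℵ_n`. -/
theorem cofSub_aleph0_le_of_lt {n : ℕ} {μ : Cardinal.{0}} (hμ : μ < ℵ_ n) :
    cofSub μ ℵ₀ ≤ ℵ_ n := by
  rcases le_or_gt μ ℵ₀ with h | h
  · exact (cofSub_le_one h).trans (one_le_aleph0.trans (aleph0_le_aleph _))
  · obtain ⟨o, rfl⟩ := Cardinal.mem_range_aleph_iff.2 h.le
    have h1 : o < (n : Ordinal) := by rwa [aleph_lt_aleph] at hμ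
    obtain ⟨k, rfl⟩ := Ordinal.lt_omega0.1 (h1.trans (Ordinal.nat_lt_omega0 n))
    have h2 := cofSub_aleph_le k 0
    have h3 : (ℵ_ ((0 : ℕ) : Ordinal) : Cardinal.{0}) = ℵ₀ := by simp
    rw [h3] at h2
    exact h2.trans hμ.le

end Pool.Agent.CpUniv
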