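import Mathlib
import Pool.Agent.CpUniv.Club

set_option autoImplicit false

open Cardinal Order Set

namespace Pool.Agent.CpUniv

/-! ### Almost disjoint sets of natural numbers -/

/-- The branch of the binary tree given by `x`, coded as a set of natural numbers. -/
def branchSet (x : ℕ → Bool) : Set ℕ :=
  range fun n : ℕ => Encodable.encode ((List.range n).map x)

theorem branchSet_infinite (x : ℕ → Bool) : (branchSet x).Infinite := by
  apply infinite_range_of_injective
  intro m n h
  have h1 := Encodable.encode_injective h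
  have h2 := congrArg List.length h1
  simpa using h2

theorem branchSet_inter_finite {x y : ℕ → Bool} (hxy : x ≠ y) :
    (branchSet x ∩ branchSet y).Finite := by
  obtain ⟨k, hk⟩ := Function.ne_iff.1 hxy
  refine ((Set.finite_le_nat k).image
    (fun n : ℕ => Encodable.encode ((List.range n).map x))).subset ?_
  rintro z ⟨⟨m, rfl⟩, ⟨n, hn⟩⟩
  refine ⟨m, ?_, rfl⟩
  have h1 : (List.range n).map y = (List.range m).map x := Encodable.encode_injective hn
  have h2 : n = m := by simpa using congrArg List.length h1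
  subst h2
  change n ≤ k
  by_contra hlt
  push Not at hlt
  apply hk
  have h3 : ((List.range n).map y)[k]? = ((List.range n).map x)[k]? := by rw [h1]
  simp [hlt] at h3
  exact h3.symm

/-- Diagonalisation against fewer than continuum many sets: there is an infinite set of natural
numbers which contains none of the given infinite sets. -/
theorem exists_infinite_avoiding {J : Type} (hJ : #J < 𝔠) (S : J → Set ℕ) :
    ∃ A : Set ℕ, A.Infinite ∧ ∀ j, (S j).Infinite → ¬ S j ⊆ A := by
  by_contra hcon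
  push Not at hcon
  have h1 : ∀ x : ℕ → Bool, ∃ j, (S j).Infinite ∧ S j ⊆ branchSet x :=
    fun x => hcon _ (branchSet_infinite x)
  choose f hf1 hf2 using h1
  have hinj : Function.Injective f := by
    intro x y hxy
    by_contra hne
    apply hf1 x
    exact (branchSet_inter_finite hne).subset (subset_inter (hf2 x) (hxy ▸ hf2 y))
  have h2 := mk_le_of_injective hinj
  have h3 : #(ℕ → Bool) = 𝔠 := by
    simp
  rw [h3] at h2
  exact absurd hJ (not_lt.2 h2)

/-! ### Infinitely often equal reals -/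

/-- A nonmeagre set of reals contains, for every `t` and every infinite `A`, a real which agrees
with `t` infinitely often on `A`. -/
theorem exists_infinitely_equal {N : Set (ℕ → ℕ)} (hN : ¬ IsMeagre N) (t : ℕ → ℕ)
    {A : Set ℕ} (hA : A.Infinite) : ∃ r ∈ N, {n | n ∈ A ∧ r n = t n}.Infinite := by
  by_contra hcon
  push Not at hcon
  apply hN
  have hopen : ∀ k : ℕ, IsOpen {r : ℕ → ℕ | ∃ n ∈ A, k ≤ n ∧ r n = t n} := by
    intro k
    have : {r : ℕ → ℕ | ∃ n ∈ A, k ≤ n ∧ r n = t n} =
        ⋃ n ∈ {n | n ∈ A ∧ k ≤ n}, {r : ℕ → ℕ | r n = t n} := by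
      ext r; simp [and_assoc]
    rw [this]
    refine isOpen_biUnion fun n _ => ?_
    have hc : Continuous (fun r : ℕ → ℕ => r n) := continuous_apply n
    exact (isOpen_discrete ({t n} : Set ℕ)).preimage hc
  have hdense : ∀ k : ℕ, Dense {r : ℕ → ℕ | ∃ n ∈ A, k ≤ n ∧ r n = t n} := by
    intro k
    rw [dense_iff_inter_open]
    intro U hU hUne
    obtain ⟨r, hr⟩ := hUne
    rw [isOpen_pi_iff] at hU
    obtain ⟨I, u, hu, hsub⟩ := hU r hr
    obtain ⟨n, hnA, hn⟩ := hA.exists_gt (k + I.sup id)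
    have hnI : n ∉ I := by
      intro hnI
      have : n ≤ I.sup id := Finset.le_sup (f := id) hnI
      omega
    refine ⟨Function.update r n (t n), hsub ?_, n, hnA, by omega, by simp⟩
    intro i hi
    have : i ≠ n := fun h => hnI (h ▸ hi)
    rw [Function.update_of_ne this]
    exact (hu i hi).2
  rw [IsMeagre]
  have hres : (⋂ k : ℕ, {r : ℕ → ℕ | ∃ n ∈ A, k ≤ n ∧ r n = t n}) ∈ residual (ℕ → ℕ) := by
    rw [countable_iInter_mem]
    exact fun k => residual_of_dense_open (hopen k) (hdense k)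
  refine Filter.mem_of_superset hres ?_
  intro r hr hrN
  have hfin := hcon r hrN
  rw [mem_iInter] at hr
  obtain ⟨k, hk⟩ := hfin.bddAbove
  obtain ⟨n, hnA, hkn, hn⟩ := hr (k + 1)
  have : n ≤ k := hk ⟨hnA, hn⟩
  omega

/-! ### Countable subsets of initial segments -/

/-- A set of size at most `ℵ₁` has an increasing family of `ℵ₁` countable subsets, cofinal in its
countable subsets. -/
theorem exists_countable_cofinal {α : Type} (s : Set α) (hs : #s ≤ ℵ₁) :
    ∃ B : (Cardinal.ord.{0} ℵ₁).ToType → Set α, (∀ i, (B i).Countable) ∧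
      ∀ T ⊆ s, T.Countable → ∃ i, T ⊆ B i := by
  classical
  have hmk : #(Cardinal.ord.{0} ℵ₁).ToType = ℵ₁ := mk_ord_toType _
  have h1 : #s ≤ #(Cardinal.ord.{0} ℵ₁).ToType := by rwa [hmk]
  obtain ⟨j⟩ := h1
  refine ⟨fun i => {x | ∃ h : x ∈ s, j ⟨x, h⟩ < i}, fun i => ?_, fun T hT hTc => ?_⟩
  · have h2 : #(Iio i) < ℵ₁ := mk_Iio_toType_ord_lt i
    have h3 : #(Iio i) < succ ℵ₀ := by rw [succ_aleph0]; exact h2
    have h4 : #(Iio i) ≤ ℵ₀ := Order.lt_succ_iff.1 h3
    rw [← le_aleph0_iff_set_countable]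
    refine le_trans ?_ h4
    refine mk_le_of_injective (f := fun x : {x | ∃ h : x ∈ s, j ⟨x, h⟩ < i} =>
      (⟨j ⟨x.1, x.2.choose⟩, x.2.choose_spec⟩ : Iio i)) ?_
    intro x y hxy
    have h5 : j ⟨x.1, x.2.choose⟩ = j ⟨y.1, y.2.choose⟩ := congrArg Subtype.val hxy
    have h6 := j.injective h5
    have h7 : x.1 = y.1 := congrArg (fun z : s => z.1) h6
    exact Subtype.ext h7
  · have hcof : Order.cof (Cardinal.ord.{0} ℵ₁).ToType = ℵ₁ := by
      rw [Ordinal.cof_toType]
      exact isRegular_aleph_one.cof_ord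
    have hneI : Nonempty (Cardinal.ord.{0} ℵ₁).ToType := by
      rw [← mk_ne_zero_iff, hmk]
      exact (aleph_pos 1).ne'
    have : ¬ IsCofinal (range fun x : T => j ⟨x.1, hT x.2⟩) := by
      intro h
      have h5 := Order.cof_le h
      rw [hcof] at h5
      have h6 : #(range fun x : T => j ⟨x.1, hT x.2⟩) ≤ ℵ₀ :=
        mk_range_le.trans (le_aleph0_iff_set_countable.2 hTc)
      exact absurd (h5.trans h6) (not_le.2 aleph0_lt_aleph_one)
    rw [not_isCofinal_iff] at this
    obtain ⟨i, hi⟩ := this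
    exact ⟨i, fun x hx => ⟨hT hx, hi _ ⟨⟨x, hx⟩, rfl⟩⟩⟩

end Pool.Agent.CpUniv
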