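import Mathlib
import Pool.Agent.CpUniv.Club
import Pool.Agent.CpUniv.Basic

set_option autoImplicit false

open Cardinal Order Set

namespace Pool.Agent.CpUniv

section Closure

variable {Θ : Type} [LinearOrder Θ] [NoMaxOrder Θ]

/-- Closing off under a function of finitely many parameters. -/
theorem exists_closure (hcof : ℵ₀ < Order.cof Θ) (hIio : ∀ a : Θ, #(Iio a) < Order.cof Θ)
    (G : Finset Θ → Θ → Θ → Θ) :
    ∃ f : Θ → Θ, ∀ α, (∃ β, β < α) → (∀ β < α, f β < α) →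
      ∀ s : Finset Θ, (∀ ζ ∈ s, ζ < α) → ∀ β < α, ∀ γ < α, G s β γ < α := by
  classical
  have hbound : ∀ μ : Θ, ∃ b, ∀ s : Finset Θ, (∀ ζ ∈ s, ζ ≤ μ) → ∀ β ≤ μ, ∀ γ ≤ μ,
      G s β γ < b := by
    intro μ
    have hIic : #(Iic μ) < Order.cof Θ := by
      obtain ⟨ν, hν⟩ := exists_gt μ
      refine (mk_le_mk_of_subset ?_).trans_lt (hIio ν)
      intro x hx
      exact lt_of_le_of_lt hx hν
    have hFin : #(Finset (Iic μ)) < Order.cof Θ := by
      rcases finite_or_infinite (Iic μ) with hfin | hinf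
      · exact (lt_aleph0_of_finite _).trans hcof
      · rw [mk_finset_of_infinite]; exact hIic
    have hprod : #(Finset (Iic μ) × Iic μ × Iic μ) < Order.cof Θ := by
      rw [mk_prod, mk_prod]
      simp only [lift_id]
      exact mul_lt_of_lt hcof.le hFin (mul_lt_of_lt hcof.le hIic hIic)
    obtain ⟨b, hb⟩ := exists_bound_of_lt_cof
      (s := range fun p : Finset (Iic μ) × Iic μ × Iic μ =>
        G (p.1.map (Function.Embedding.subtype _)) p.2.1 p.2.2) (mk_range_le.trans_lt hprod)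
    refine ⟨b, fun s hs β hβ γ hγ => ?_⟩
    have hmap : (s.subtype (· ∈ Iic μ)).map (Function.Embedding.subtype _) = s :=
      Finset.subtype_map_of_mem hs
    have := hb _ ⟨(s.subtype (· ∈ Iic μ), ⟨β, hβ⟩, ⟨γ, hγ⟩), rfl⟩
    simp only at this
    rwa [hmap] at this
  choose f hf using hbound
  refine ⟨f, fun α hα hcl s hs β hβ γ hγ => ?_⟩
  have hsup : ∃ μ < α, (∀ ζ ∈ s, ζ ≤ μ) ∧ β ≤ μ ∧ γ ≤ μ := by
    induction s using Finset.induction_on with
    | empty =>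
      exact ⟨max β γ, max_lt hβ hγ, by simp, le_max_left _ _, le_max_right _ _⟩
    | insert x t hx ih =>
      obtain ⟨μ, hμα, hμ, hβμ, hγμ⟩ := ih (fun ζ hζ => hs ζ (Finset.mem_insert_of_mem hζ))
      refine ⟨max x μ, max_lt (hs x (Finset.mem_insert_self _ _)) hμα, ?_,
        hβμ.trans (le_max_right _ _), hγμ.trans (le_max_right _ _)⟩
      intro ζ hζ
      rcases Finset.mem_insert.1 hζ with rfl | hζ
      · exact le_max_left _ _
      · exact (hμ ζ hζ).trans (le_max_right _ _)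
  obtain ⟨μ, hμα, hμ, hβμ, hγμ⟩ := hsup
  exact (hf μ s hμ β hβμ γ hγμ).trans (hcl μ hμα)

end Closure

section Decode

variable {Θ : Type} {X W : Type} [TopologicalSpace X] [TopologicalSpace W]

/-- The sum of the functions `h ζ`, `ζ ∈ s`. -/
noncomputable def bump (h : Θ → C(X, ℝ)) (s : Finset Θ) : C(X, ℝ) := ∑ ζ ∈ s, h ζ

theorem bump_apply (h : Θ → C(X, ℝ)) (s : Finset Θ) (x : X) : bump h s x = ∑ ζ ∈ s, h ζ x := by
  simp [bump]

open Classical in
/-- The finite set `{η k : k < n, k ∈ A}`. -/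
noncomputable def initSet (A : Set ℕ) (η : ℕ → Θ) (n : ℕ) : Finset Θ :=
  ((Finset.range n).filter (· ∈ A)).image η

theorem mem_initSet {A : Set ℕ} {η : ℕ → Θ} {n : ℕ} {ζ : Θ} :
    ζ ∈ initSet A η n ↔ ∃ k < n, k ∈ A ∧ η k = ζ := by
  simp [initSet, and_assoc]

theorem initSet_succ_of_notMem {A : Set ℕ} {η : ℕ → Θ} {n : ℕ} (hn : n ∉ A) :
    initSet A η (n + 1) = initSet A η n := by
  classical
  simp only [initSet]
  rw [Finset.range_add_one, Finset.filter_insert, if_neg hn]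

theorem bump_initSet_succ_of_mem {A : Set ℕ} {η : ℕ → Θ} (hη : Function.Injective η) {n : ℕ}
    (hn : n ∈ A) (h : Θ → C(X, ℝ)) :
    bump h (initSet A η (n + 1)) = bump h (initSet A η n) + h (η n) := by
  classical
  have h1 : initSet A η (n + 1) = insert (η n) (initSet A η n) := by
    simp only [initSet]
    rw [Finset.range_add_one, Finset.filter_insert, if_pos hn, Finset.image_insert]
  have h2 : η n ∉ initSet A η n := by
    rw [mem_initSet]
    rintro ⟨k, hk, _, hkn⟩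
    exact hk.ne (hη hkn)
  rw [h1, bump, bump, Finset.sum_insert h2, add_comm]

/-- The set decoded from the function `g β₀` along the sequence `a`. -/
def invSet [LinearOrder Θ] (wpt : C(W, ℝ) → C(W, ℝ) → W) (g : Θ → C(W, ℝ)) (β₀ : Θ) (ε : ℝ)
    (a : ℕ → Θ) : Set ℕ :=
  {n | ∀ β < a n, ∃ ν < a (n + 1), ∃ ν' < a (n + 1),
    ε < |g β₀ (wpt (g ν) (g ν')) - g β (wpt (g ν) (g ν'))|}

variable [LinearOrder Θ] [NoMaxOrder Θ]

/-- Far away tails are invisible at a given point of `W`. -/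
theorem exists_threshold (hcof : ℵ₀ < Order.cof Θ) {φ : C(X, ℝ) → C(W, ℝ)}
    (hφ : IsCpContinuous φ) (h : Θ → C(X, ℝ)) {Λ : Type} (H : Λ → C(X, ℝ)) (η : Λ → ℕ → Θ)
    (A : Set ℕ)
    (hX2 : ∀ x, ∃ b : Θ, ∀ l n, b ≤ η l n → H l x = bump h (initSet A (η l) n) x)
    (s : Finset Θ) (w : W) :
    ∃ b : Θ, ∀ l n, initSet A (η l) n = s → b ≤ η l n → φ (H l) w = φ (bump h s) w := by
  have hpos : ∀ m : ℕ, (0 : ℝ) < 1 / ((m : ℝ) + 1) := fun m => by positivity
  choose F hF using fun m : ℕ => exists_finite_agree hφ (bump h s) w (hpos m)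
  choose b hb using hX2
  have hcount : #(⋃ m : ℕ, b '' (F m : Set X) : Set Θ) < Order.cof Θ := by
    refine lt_of_le_of_lt ?_ hcof
    rw [le_aleph0_iff_set_countable]
    exact countable_iUnion fun m => ((F m).finite_toSet.image b).countable
  obtain ⟨c, hc⟩ := exists_bound_of_lt_cof hcount
  refine ⟨c, fun l n hln hcn => ?_⟩
  have hagree : ∀ m, ∀ x ∈ F m, H l x = bump h s x := by
    intro m x hx
    rw [← hln]
    apply hb
    refine (hc (b x) ?_).le.trans hcn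
    exact mem_iUnion.2 ⟨m, x, hx, rfl⟩
  have hlt : ∀ m : ℕ, |φ (H l) w - φ (bump h s) w| < 1 / ((m : ℝ) + 1) := fun m =>
    hF m (H l) (hagree m)
  have : |φ (H l) w - φ (bump h s) w| ≤ 0 := by
    apply le_of_forall_pos_lt_add
    intro e he
    obtain ⟨m, hm⟩ := exists_nat_one_div_lt he
    have := hlt m
    linarith
  have := abs_nonpos_iff.1 this
  linarith

/-- Limits of bumps. -/
theorem norm_le_of_infinite [CompactSpace W] {φ : C(X, ℝ) → C(W, ℝ)}
    (hφ : IsCpContinuous φ) (h : Θ → C(X, ℝ)) (hX1 : ∀ x, {ζ | h ζ x ≠ 0}.Finite)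
    (s : Finset Θ) (u : C(W, ℝ)) {c : ℝ} (hc : 0 ≤ c)
    (hY : {ζ | ‖φ (bump h s + h ζ) - u‖ ≤ c}.Infinite) : ‖φ (bump h s) - u‖ ≤ c := by
  rw [ContinuousMap.norm_le _ hc]
  intro w
  apply le_of_forall_pos_lt_add
  intro e he
  obtain ⟨F, hF⟩ := exists_finite_agree hφ (bump h s) w he
  have hfin : (⋃ x ∈ F, {ζ | h ζ x ≠ 0}).Finite :=
    F.finite_toSet.biUnion fun x _ => hX1 x
  obtain ⟨ζ, hζY, hζ⟩ := hY.exists_notMem_finite hfin
  have hz : ∀ x ∈ F, h ζ x = 0 := by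
    intro x hx
    by_contra hne
    exact hζ (mem_biUnion hx hne)
  have h1 := hF (bump h s + h ζ) (fun x hx => by simp [hz x hx])
  have h2 : |φ (bump h s + h ζ) w - u w| ≤ c := by
    have := ((φ (bump h s + h ζ) - u).norm_coe_le_norm w).trans hζY
    simpa using this
  simp only [ContinuousMap.coe_sub, Pi.sub_apply, Real.norm_eq_abs]
  have h3 := abs_sub_le (φ (bump h s) w) (φ (bump h s + h ζ) w) (u w)
  rw [abs_sub_comm (φ (bump h s) w) (φ (bump h s + h ζ) w)] at h3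
  linarith

/-- **The decoding lemma.** -/
theorem decode (hcof : ℵ₀ < Order.cof Θ) (hIio : ∀ a : Θ, #(Iio a) < Order.cof Θ)
    [CompactSpace W] {φ : C(X, ℝ) → C(W, ℝ)} (hφ : IsCpContinuous φ)
    (h : Θ → C(X, ℝ)) {Λ : Type} (H : Λ → C(X, ℝ)) (η : Λ → ℕ → Θ) (A : Set ℕ)
    (hX1 : ∀ x, {ζ | h ζ x ≠ 0}.Finite)
    (hX2 : ∀ x, ∃ b : Θ, ∀ l n, b ≤ η l n → H l x = bump h (initSet A (η l) n) x)
    (wpt : C(W, ℝ) → C(W, ℝ) → W) (hwpt : ∀ g g' : C(W, ℝ), ‖g - g'‖ =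
      |g (wpt g g') - g' (wpt g g')|)
    (g : Θ → C(W, ℝ)) {ε : ℝ} (hε : 0 < ε)
    (hg1 : ∀ s : Finset Θ, ∃ β, ‖g β - φ (bump h s)‖ ≤ ε / 4)
    (hg2 : ∀ l, ∃ β, ‖g β - φ (H l)‖ ≤ ε / 4)
    (ρ : Θ) (zs : Θ → Θ)
    (hJ : ∀ α, ∀ s : Finset Θ, (∀ ζ ∈ s, ρ ≤ ζ ∧ ζ < α) →
      4 * ε < ‖φ (bump h s + h (zs α)) - φ (bump h s)‖)
    (a : Θ → ℕ → Θ) (ha : ∀ δ, StrictMono (a δ))
    (hguess : ∀ f : Θ → Θ, ∃ δ, ∀ n, (∃ β, β < a δ n) ∧ ∀ β < a δ n, f β < a δ n)
    (hlad : ∀ δ, (∀ n, zs (a δ n) < a δ (n + 1)) →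
      ∃ l, (∀ n, a δ n ≤ η l n ∧ η l n < a δ (n + 1)) ∧
        {n | n ∈ A ∧ η l n = zs (a δ n)}.Infinite)
    (hbad : ∀ β₀ δ, (invSet wpt g β₀ ε (a δ)).Infinite → ¬ invSet wpt g β₀ ε (a δ) ⊆ A) :
    False := by
  classical
  -- the closing-off functions
  choose gi hgi using hg1
  choose bb hbb using exists_threshold hcof hφ h H η A hX2
  let Y : Finset Θ → Θ → Set Θ := fun s β => {ζ | ‖φ (bump h s + h ζ) - g β‖ ≤ 2 * ε}
  let yb : Finset Θ → Θ → Θ := fun s β =>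
    if hb : ∃ b, ∀ ζ ∈ Y s β, ζ < b then hb.choose else β
  obtain ⟨f1, hf1⟩ := exists_closure hcof hIio (fun _ β _ => zs β)
  obtain ⟨f2, hf2⟩ := exists_closure hcof hIio (fun _ _ _ => ρ)
  obtain ⟨f3, hf3⟩ := exists_closure hcof hIio (fun s _ _ => gi s)
  obtain ⟨f4, hf4⟩ := exists_closure hcof hIio (fun s ν ν' => bb s (wpt (g ν) (g ν')))
  obtain ⟨f5, hf5⟩ := exists_closure hcof hIio (fun s β _ => yb s β)
  obtain ⟨δ, hδ⟩ := hguess (fun β => max (max (max (f1 β) (f2 β)) (max (f3 β) (f4 β))) (f5 β))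
  have hc : ∀ n, ∀ β < a δ n, f1 β < a δ n ∧ f2 β < a δ n ∧ f3 β < a δ n ∧ f4 β < a δ n ∧
      f5 β < a δ n := by
    intro n β hβ
    have := (hδ n).2 β hβ
    simp only [max_lt_iff] at this
    tauto
  have hzs : ∀ n, zs (a δ n) < a δ (n + 1) := by
    intro n
    have hlt : a δ n < a δ (n + 1) := ha δ (Nat.lt_succ_self n)
    exact hf1 _ (hδ (n + 1)).1 (fun β hβ => (hc (n + 1) β hβ).1) ∅ (by simp) _ hlt _ hlt
  have hρ : ∀ n, ρ < a δ n := by
    intro n
    obtain ⟨β, hβ⟩ := (hδ n).1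
    exact hf2 _ (hδ n).1 (fun β hβ => (hc n β hβ).2.1) ∅ (by simp) _ hβ _ hβ
  have hgi' : ∀ n, ∀ s : Finset Θ, (∀ ζ ∈ s, ζ < a δ n) → gi s < a δ n := by
    intro n s hs
    obtain ⟨β, hβ⟩ := (hδ n).1
    exact hf3 _ (hδ n).1 (fun β hβ => (hc n β hβ).2.2.1) s hs _ hβ _ hβ
  have hbb' : ∀ n, ∀ s : Finset Θ, (∀ ζ ∈ s, ζ < a δ n) → ∀ ν < a δ n, ∀ ν' < a δ n,
      bb s (wpt (g ν) (g ν')) < a δ n := by
    intro n s hs ν hν ν' hν'
    exact hf4 _ (hδ n).1 (fun β hβ => (hc n β hβ).2.2.2.1) s hs _ hν _ hν'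
  have hyb' : ∀ n, ∀ s : Finset Θ, (∀ ζ ∈ s, ζ < a δ n) → ∀ β < a δ n, yb s β < a δ n := by
    intro n s hs β hβ
    exact hf5 _ (hδ n).1 (fun β hβ => (hc n β hβ).2.2.2.2) s hs _ hβ _ hβ
  obtain ⟨l, hl1, hl2⟩ := hlad δ hzs
  have hηmono : StrictMono (η l) := by
    apply strictMono_nat_of_lt_succ
    intro n
    exact (hl1 n).2.trans_le (hl1 (n + 1)).1
  -- the approximation to the coded function
  obtain ⟨β₀, hβ₀⟩ := hg2 l
  have hs_lt : ∀ n, ∀ ζ ∈ initSet A (η l) n, ζ < a δ n := by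
    intro n ζ hζ
    obtain ⟨k, hk, _, rfl⟩ := mem_initSet.1 hζ
    exact (hl1 k).2.trans_le ((ha δ).monotone hk)
  have hs_ge : ∀ n, ∀ ζ ∈ initSet A (η l) n, ρ ≤ ζ := by
    intro n ζ hζ
    obtain ⟨k, hk, _, rfl⟩ := mem_initSet.1 hζ
    exact (hρ k).le.trans (hl1 k).1
  -- the value of the coded function at early points
  have hval : ∀ n, ∀ ν < a δ (n + 1), ∀ ν' < a δ (n + 1),
      φ (H l) (wpt (g ν) (g ν')) = φ (bump h (initSet A (η l) (n + 1))) (wpt (g ν) (g ν')) := by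
    intro n ν hν ν' hν'
    refine hbb (initSet A (η l) (n + 1)) (wpt (g ν) (g ν')) l (n + 1) rfl ?_
    exact (hbb' (n + 1) _ (hs_lt (n + 1)) ν hν ν' hν').le.trans (hl1 (n + 1)).1
  have hptw : ∀ (u v : C(W, ℝ)) (w : W) (c : ℝ), ‖u - v‖ ≤ c → |u w - v w| ≤ c := by
    intro u v w c huv
    have := ((u - v).norm_coe_le_norm w).trans huv
    simpa using this
  -- claim 1
  have hsub : invSet wpt g β₀ ε (a δ) ⊆ A := by
    intro n hn
    by_contra hnA
    have h1 : gi (initSet A (η l) n) < a δ n := hgi' n _ (hs_lt n)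
    obtain ⟨ν, hν, ν', hν', hlt⟩ := hn _ h1
    set w := wpt (g ν) (g ν') with hw
    have h2 := hptw _ _ w _ hβ₀
    have h3 := hptw _ _ w _ (hgi (initSet A (η l) n))
    have h4 := hval n ν hν ν' hν'
    rw [← hw, initSet_succ_of_notMem hnA] at h4
    rw [h4] at h2
    have h5 := abs_sub_le (g β₀ w) (φ (bump h (initSet A (η l) n)) w)
      (g (gi (initSet A (η l) n)) w)
    rw [abs_sub_comm (φ (bump h (initSet A (η l) n)) w)
      (g (gi (initSet A (η l) n)) w)] at h5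
    linarith
  -- claim 2
  have hinf : (invSet wpt g β₀ ε (a δ)).Infinite := by
    refine hl2.mono ?_
    rintro n ⟨hnA, hnz⟩
    by_contra hninv
    simp only [invSet, mem_ofPred_eq, not_forall, not_exists, not_and, not_lt] at hninv
    obtain ⟨β, hβ, hall⟩ := hninv
    have hlt : a δ n < a δ (n + 1) := ha δ (Nat.lt_succ_self n)
    have hβ' : gi (initSet A (η l) (n + 1)) < a δ (n + 1) := hgi' (n + 1) _ (hs_lt (n + 1))
    set β' := gi (initSet A (η l) (n + 1)) with hβ'def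
    set w := wpt (g β) (g β') with hw
    have h1 := hall β (hβ.trans hlt) β' hβ'
    rw [← hw] at h1
    have h2 := hptw _ _ w _ hβ₀
    have h3 := hptw _ _ w _ (hgi (initSet A (η l) (n + 1)))
    rw [← hβ'def] at h3
    have h4 := hval n β (hβ.trans hlt) β' hβ'
    rw [← hw] at h4
    rw [h4] at h2
    have h5 : ‖g β - g β'‖ ≤ 3 * ε / 2 := by
      rw [hwpt (g β) (g β'), ← hw]
      have e1 := abs_sub_le (g β w) (g β₀ w) (g β' w)
      have e2 := abs_sub_le (g β₀ w) (φ (bump h (initSet A (η l) (n + 1))) w) (g β' w)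
      rw [abs_sub_comm (g β w) (g β₀ w)] at e1
      rw [abs_sub_comm (φ (bump h (initSet A (η l) (n + 1))) w) (g β' w)] at e2
      linarith
    have h6 : ‖φ (bump h (initSet A (η l) (n + 1))) - g β‖ ≤ 2 * ε := by
      have e1 := norm_sub_le_norm_sub_add_norm_sub
        (φ (bump h (initSet A (η l) (n + 1)))) (g β') (g β)
      have e2 := hgi (initSet A (η l) (n + 1))
      rw [← hβ'def] at e2
      rw [norm_sub_rev (φ (bump h (initSet A (η l) (n + 1)))) (g β'),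
        norm_sub_rev (g β') (g β)] at e1
      linarith
    rw [bump_initSet_succ_of_mem hηmono.injective hnA] at h6
    have h7 : η l n ∈ Y (initSet A (η l) n) β := h6
    have h8 : ¬ ∃ b, ∀ ζ ∈ Y (initSet A (η l) n) β, ζ < b := by
      intro hb
      have h9 := hyb' n _ (hs_lt n) β hβ
      simp only [yb] at h9
      rw [dif_pos hb] at h9
      have h10 := hb.choose_spec _ h7
      exact absurd ((h10.trans h9).trans_le (hl1 n).1) (lt_irrefl _)
    have h11 : (Y (initSet A (η l) n) β).Infinite := by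
      intro hfin
      apply h8
      refine exists_bound_of_lt_cof ?_
      exact (lt_aleph0_iff_set_finite.2 hfin).trans hcof
    have h12 := norm_le_of_infinite hφ h hX1 (initSet A (η l) n) (g β) (by positivity) h11
    have h13 := hJ (a δ n) (initSet A (η l) n) fun ζ hζ => ⟨hs_ge n ζ hζ, hs_lt n ζ hζ⟩
    rw [← hnz] at h13
    have h14 := norm_sub_le_norm_sub_add_norm_sub
      (φ (bump h (initSet A (η l) n) + h (η l n))) (g β) (φ (bump h (initSet A (η l) n)))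
    rw [norm_sub_rev (g β)] at h14
    linarith
  exact hbad β₀ δ hinf hsub

end Decode

end Pool.Agent.CpUniv
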