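import Mathlib
import Pool.Agent.CpUniv.Basic

set_option autoImplicit false

open Cardinal Topology

namespace Pool.Agent.CpUniv

/-- `D` describes the continuous function `v` up to `1/(m+1)`. -/
def Describes {W : Type} [TopologicalSpace W] (B : Set (Set W)) (D : Finset (B × ℚ)) (m : ℕ)
    (v : C(W, ℝ)) : Prop :=
  (∀ w : W, ∃ p ∈ D, w ∈ (p.1 : Set W)) ∧
    ∀ p ∈ D, ∀ w ∈ (p.1 : Set W), |v w - (p.2 : ℝ)| ≤ 1 / ((m : ℝ) + 1)

theorem exists_describes {W : Type} [TopologicalSpace W] [CompactSpace W] {B : Set (Set W)}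
    (hB : TopologicalSpace.IsTopologicalBasis B) (m : ℕ) (v : C(W, ℝ)) :
    ∃ D : Finset (B × ℚ), Describes B D m v := by
  classical
  have hm : (0 : ℝ) < 1 / ((m : ℝ) + 1) := by positivity
  have key : ∀ w : W, ∃ (O : B) (q : ℚ), w ∈ (O : Set W) ∧
      ∀ w' ∈ (O : Set W), |v w' - (q : ℝ)| ≤ 1 / ((m : ℝ) + 1) := by
    intro w
    obtain ⟨q, hq1, hq2⟩ := exists_rat_btwn (show v w - 1 / ((m : ℝ) + 1) / 2 < v w by linarith)
    have hopen : IsOpen {w' : W | |v w' - (q : ℝ)| < 1 / ((m : ℝ) + 1)} := by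
      apply isOpen_lt
      · exact (continuous_abs.comp (v.continuous.sub continuous_const))
      · exact continuous_const
    have hw : w ∈ {w' : W | |v w' - (q : ℝ)| < 1 / ((m : ℝ) + 1)} := by
      simp only [Set.mem_ofPred_eq, abs_lt]
      constructor <;> linarith
    obtain ⟨O, hO, hwO, hsub⟩ := hB.exists_subset_of_mem_open hw hopen
    refine ⟨⟨O, hO⟩, q, hwO, fun w' hw' => ?_⟩
    have := hsub hw'
    exact le_of_lt this
  choose O q hwO hO using key
  obtain ⟨t, ht⟩ := isCompact_univ.elim_finite_subcover (fun w : W => (O w : Set W))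
    (fun w => hB.isOpen (O w).2) (fun w _ => Set.mem_iUnion.2 ⟨w, hwO w⟩)
  refine ⟨t.image (fun w => (O w, q w)), ?_, ?_⟩
  · intro w
    have := ht (Set.mem_univ w)
    simp only [Set.mem_iUnion] at this
    obtain ⟨w', hw't, hw'⟩ := this
    exact ⟨(O w', q w'), Finset.mem_image_of_mem _ hw't, hw'⟩
  · intro p hp w hw
    obtain ⟨w', _, rfl⟩ := Finset.mem_image.1 hp
    exact hO w' w hw

/-- For a compact space of weight at most `κ` there is a norm-dense set of at most `κ`
continuous functions. -/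
theorem exists_dense_family {W : Type} [TopologicalSpace W] [CompactSpace W]
    {κ : Cardinal.{0}} (hκ : ℵ₀ ≤ κ) (hW : weight W ≤ κ) :
    ∃ G : Set C(W, ℝ), #G ≤ κ ∧ ∀ (v : C(W, ℝ)) (ε : ℝ), 0 < ε → ∃ g ∈ G, ‖g - v‖ ≤ ε := by
  classical
  obtain ⟨B, hB, hBc⟩ := exists_basis_card_eq_weight W
  let F : Finset (B × ℚ) × ℕ → C(W, ℝ) := fun p =>
    if h : ∃ v, Describes B p.1 p.2 v then h.choose else 0
  refine ⟨Set.range F, ?_, ?_⟩
  · refine mk_range_le.trans ?_
    rw [mk_prod]
    simp only [lift_id, mk_nat]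
    have h1 : #(B × ℚ) ≤ κ := by
      rw [mk_prod]
      simp only [lift_id]
      have : #ℚ = ℵ₀ := mk_denumerable ℚ
      rw [this]
      calc #B * ℵ₀ ≤ κ * κ := mul_le_mul' (hBc.le.trans hW) hκ
        _ = κ := mul_eq_self hκ
    have h2 : #(Finset (B × ℚ)) ≤ κ := by
      rcases finite_or_infinite (B × ℚ) with hfin | hinf
      · have : #(Finset (B × ℚ)) < ℵ₀ := by
          have := Fintype.ofFinite (B × ℚ)
          exact lt_aleph0_of_finite _
        exact this.le.trans hκ
      · rw [mk_finset_of_infinite]; exact h1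
    calc #(Finset (B × ℚ)) * ℵ₀ ≤ κ * κ := mul_le_mul' h2 hκ
      _ = κ := mul_eq_self hκ
  · intro v ε hε
    obtain ⟨m, hm⟩ := exists_nat_gt (2 / ε)
    obtain ⟨D, hD⟩ := exists_describes hB m v
    refine ⟨F (D, m), ⟨_, rfl⟩, ?_⟩
    have hex : ∃ v, Describes B D m v := ⟨v, hD⟩
    have hF : F (D, m) = hex.choose := by simp only [F]; rw [dif_pos hex]
    rw [hF]
    have hspec := hex.choose_spec
    set g := hex.choose with hg
    rw [ContinuousMap.norm_le _ hε.le]
    intro w
    obtain ⟨p, hp, hwp⟩ := hD.1 w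
    have h1 := hD.2 p hp w hwp
    have h2 := hspec.2 p hp w hwp
    have hmpos : (0 : ℝ) < (m : ℝ) + 1 := by positivity
    have h3 : 2 / ((m : ℝ) + 1) ≤ ε := by
      rw [div_le_iff₀ hmpos]
      have : 2 / ε < (m : ℝ) + 1 := by linarith
      rw [div_lt_iff₀ hε] at this
      linarith [mul_comm ((m : ℝ) + 1) ε]
    simp only [ContinuousMap.coe_sub, Pi.sub_apply, Real.norm_eq_abs]
    have h4 : |g w - v w| ≤ |g w - (p.2 : ℝ)| + |v w - (p.2 : ℝ)| := by
      have := abs_sub_le (g w) (p.2 : ℝ) (v w)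
      rwa [abs_sub_comm (p.2 : ℝ) (v w)] at this
    have h5 : (2 : ℝ) / ((m : ℝ) + 1) = 1 / ((m : ℝ) + 1) + 1 / ((m : ℝ) + 1) := by ring
    linarith

/-- A norm-attaining point for the difference of two continuous functions. -/
theorem exists_norm_attained {W : Type} [TopologicalSpace W] [CompactSpace W] [Nonempty W]
    (g g' : C(W, ℝ)) : ∃ w : W, ‖g - g'‖ = |g w - g' w| := by
  have hc : Continuous (fun w : W => |g w - g' w|) :=
    continuous_abs.comp (g.continuous.sub g'.continuous)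
  obtain ⟨w, _, hw⟩ := isCompact_univ.exists_isMaxOn (Set.univ_nonempty (α := W))
    hc.continuousOn
  refine ⟨w, le_antisymm ?_ ?_⟩
  · rw [ContinuousMap.norm_le _ (abs_nonneg _)]
    intro w'
    have := hw (Set.mem_univ w')
    simpa using this
  · have := (g - g').norm_coe_le_norm w
    simpa using this

end Pool.Agent.CpUniv
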