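import Mathlib
import Pool.Agent.CpUniv.Decode

set_option autoImplicit false

open Cardinal Order Set

namespace Pool.Agent.CpUniv

variable {Θ : Type} {X W : Type} [TopologicalSpace X] [TopologicalSpace W] [CompactSpace W]

/-- The jump at `ζ` persists over bumps avoiding a finite set. -/
theorem exists_finset_avoid {φ : C(X, ℝ) → C(W, ℝ)} (hφ : IsCpContinuous φ)
    (h : Θ → C(X, ℝ)) (hX1 : ∀ x, {ζ | h ζ x ≠ 0}.Finite) {ε : ℝ} (hε : 0 < ε) (ζ : Θ)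
    (hζ : 10 * ε < ‖φ (h ζ) - φ 0‖) :
    ∃ F : Finset Θ, ∀ s : Finset Θ, Disjoint s F →
      4 * ε < ‖φ (bump h s + h ζ) - φ (bump h s)‖ := by
  classical
  have hw : ∃ w : W, 10 * ε < |φ (h ζ) w - φ 0 w| := by
    by_contra hcon
    push Not at hcon
    have : ‖φ (h ζ) - φ 0‖ ≤ 10 * ε := by
      rw [ContinuousMap.norm_le _ (by positivity)]
      intro w
      simpa using hcon w
    exact absurd hζ (not_lt.2 this)
  obtain ⟨w, hw⟩ := hw
  have h3 : (0 : ℝ) < 3 * ε := by positivity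
  obtain ⟨F1, hF1⟩ := exists_finite_agree hφ 0 w h3
  obtain ⟨F2, hF2⟩ := exists_finite_agree hφ (h ζ) w h3
  have hfin : (⋃ x ∈ F1 ∪ F2, {ζ | h ζ x ≠ 0}).Finite :=
    (F1 ∪ F2).finite_toSet.biUnion fun x _ => hX1 x
  refine ⟨hfin.toFinset, fun s hs => ?_⟩
  have hz : ∀ x ∈ F1 ∪ F2, bump h s x = 0 := by
    intro x hx
    rw [bump_apply]
    apply Finset.sum_eq_zero
    intro ζ' hζ'
    by_contra hne
    refine (Finset.disjoint_left.1 hs) hζ' ?_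
    rw [Finite.mem_toFinset]
    exact mem_biUnion hx hne
  have e1 := hF1 (bump h s) (fun x hx => by
    simpa using hz x (Finset.mem_union_left _ hx))
  have e2 := hF2 (bump h s + h ζ) (fun x hx => by
    simp [hz x (Finset.mem_union_right _ hx)])
  have e3 : |φ (bump h s + h ζ) w - φ (bump h s) w| ≤ ‖φ (bump h s + h ζ) - φ (bump h s)‖ := by
    have := (φ (bump h s + h ζ) - φ (bump h s)).norm_coe_le_norm w
    simpa using this
  have e4 := abs_sub_le (φ (h ζ) w) (φ (bump h s + h ζ) w) (φ 0 w)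
  have e5 := abs_sub_le (φ (bump h s + h ζ) w) (φ (bump h s) w) (φ 0 w)
  rw [abs_sub_comm (φ (h ζ) w) (φ (bump h s + h ζ) w)] at e4
  linarith

/-- The jump lemma for continuous injections. -/
theorem exists_jump [LinearOrder Θ] [NoMaxOrder Θ] [Nonempty Θ] (hcof : ℵ₀ < Order.cof Θ)
    {φ : C(X, ℝ) → C(W, ℝ)} (hφ : IsCpContinuous φ) (hinj : Function.Injective φ)
    (h : Θ → C(X, ℝ)) (hX1 : ∀ x, {ζ | h ζ x ≠ 0}.Finite) (h0 : ∀ ζ, h ζ ≠ 0) :
    ∃ (m : ℕ) (ρ : Θ) (zs : Θ → Θ), (∀ α, α ≤ zs α) ∧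
      ∀ α, ∀ s : Finset Θ, (∀ ζ ∈ s, ρ ≤ ζ ∧ ζ < α) →
        4 * (1 / ((m : ℝ) + 1)) < ‖φ (bump h s + h (zs α)) - φ (bump h s)‖ := by
  classical
  have hpos : ∀ m : ℕ, (0 : ℝ) < 1 / ((m : ℝ) + 1) := fun m => by positivity
  -- an unbounded set of good indices
  have hT : ∃ m : ℕ, ∀ b : Θ, ∃ ζ, b ≤ ζ ∧ 10 * (1 / ((m : ℝ) + 1)) < ‖φ (h ζ) - φ 0‖ := by
    by_contra hcon
    push Not at hcon
    choose b hb using hcon
    obtain ⟨c, hc⟩ := exists_bound_of_lt_cof (s := range b)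
      ((mk_range_le.trans (by simp)).trans_lt hcof)
    have hne : φ (h c) ≠ φ 0 := fun he => h0 c (hinj he)
    have hn : 0 < ‖φ (h c) - φ 0‖ / 10 := by
      have : 0 < ‖φ (h c) - φ 0‖ := norm_pos_iff.2 (sub_ne_zero.2 hne)
      positivity
    obtain ⟨m, hm⟩ := exists_nat_one_div_lt hn
    have := hb m c (hc _ ⟨m, rfl⟩).le
    linarith
  obtain ⟨m, hm⟩ := hT
  -- the finite sets to avoid
  have hF : ∀ ζ : Θ, ∃ F : Finset Θ, 10 * (1 / ((m : ℝ) + 1)) < ‖φ (h ζ) - φ 0‖ →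
      ∀ s : Finset Θ, Disjoint s F →
        4 * (1 / ((m : ℝ) + 1)) < ‖φ (bump h s + h ζ) - φ (bump h s)‖ := by
    intro ζ
    by_cases hζ : 10 * (1 / ((m : ℝ) + 1)) < ‖φ (h ζ) - φ 0‖
    · obtain ⟨F, hF⟩ := exists_finset_avoid hφ h hX1 (hpos m) ζ hζ
      exact ⟨F, fun _ => hF⟩
    · exact ⟨∅, fun hh => absurd hh hζ⟩
  choose F hF using hF
  have hρ : ∃ ρ : Θ, ∀ α, ∃ ζ, α ≤ ζ ∧ 10 * (1 / ((m : ℝ) + 1)) < ‖φ (h ζ) - φ 0‖ ∧
      ∀ ζ' ∈ F ζ, ρ ≤ ζ' → ¬ ζ' < α := by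
    by_contra hcon
    push Not at hcon
    choose al hal using hcon
    obtain ⟨b0⟩ := (inferInstance : Nonempty Θ)
    let r : ℕ → Θ := fun n => Nat.rec b0 (fun _ x => al x) n
    have hr : ∀ n, r (n + 1) = al (r n) := fun n => rfl
    obtain ⟨c, hc⟩ := exists_bound_of_lt_cof (s := range r)
      ((mk_range_le.trans (by simp)).trans_lt hcof)
    obtain ⟨ζ, hcζ, hζ⟩ := hm c
    have hex : ∀ n, ∃ ζ' ∈ F ζ, r n ≤ ζ' ∧ ζ' < r (n + 1) := by
      intro n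
      have h1 : al (r n) ≤ ζ := by
        rw [← hr n]
        exact (hc _ ⟨n + 1, rfl⟩).le.trans hcζ
      obtain ⟨ζ', h2, h3, h4⟩ := hal (r n) ζ h1 hζ
      exact ⟨ζ', h2, h3, by rw [hr n]; exact h4⟩
    choose z hz1 hz2 hz3 using hex
    have hmono : StrictMono z := by
      apply strictMono_nat_of_lt_succ
      intro n
      exact (hz3 n).trans_le (hz2 (n + 1))
    have hinf : (range z).Infinite := infinite_range_of_injective hmono.injective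
    exact hinf ((F ζ).finite_toSet.subset (by rintro _ ⟨n, rfl⟩; exact hz1 n))
  obtain ⟨ρ, hρ⟩ := hρ
  choose zs hzs1 hzs2 hzs3 using hρ
  refine ⟨m, ρ, zs, hzs1, fun α s hs => ?_⟩
  refine hF (zs α) (hzs2 α) s ?_
  rw [Finset.disjoint_left]
  intro ζ hζs hζF
  exact hzs3 α ζ hζF (hs ζ hζs).1 (hs ζ hζs).2

end Pool.Agent.CpUniv
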