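import Mathlib
import Pool.Agent.CpUniv.Comb
import Pool.Agent.CpUniv.Basic

set_option autoImplicit false

open Cardinal Order Set

namespace Pool.Agent.CpUniv

section

variable {Θ : Type} [LinearOrder Θ] [WellFoundedLT Θ] [NoMaxOrder Θ] [Nonempty Θ]

omit [Nonempty Θ] in
/-- The closure points of a function form a club set. -/
theorem isClub_closurePoints (hcof : ℵ₀ < Order.cof Θ) (hIio : ∀ a : Θ, #(Iio a) < Order.cof Θ)
    (f : Θ → Θ) : IsClub {α : Θ | (∃ β, β < α) ∧ ∀ β < α, f β < α} := by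
  constructor
  · intro t ht hne _ α hα
    constructor
    · obtain ⟨γ, hγ⟩ := hne
      obtain ⟨β, hβ⟩ := (ht hγ).1
      exact ⟨β, hβ.trans_le (hα.1 hγ)⟩
    · intro β hβ
      have hex : ∃ γ ∈ t, β < γ := by
        by_contra hcon
        push Not at hcon
        exact absurd hβ (not_lt.2 (hα.2 hcon))
      obtain ⟨γ, hγ, hβγ⟩ := hex
      exact ((ht hγ).2 β hβγ).trans_le (hα.1 hγ)
  · intro x
    have hF : ∀ y : Θ, ∃ b, y < b ∧ ∀ β ≤ y, f β < b := by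
      intro y
      have hIic : #(Iic y) < Order.cof Θ := by
        obtain ⟨ν, hν⟩ := exists_gt y
        refine (mk_le_mk_of_subset ?_).trans_lt (hIio ν)
        intro z hz
        exact lt_of_le_of_lt hz hν
      obtain ⟨b, hb⟩ := exists_bound_of_lt_cof (s := f '' Iic y)
        (mk_image_le.trans_lt hIic)
      obtain ⟨c, hc⟩ := exists_gt (max b y)
      exact ⟨c, (le_max_right _ _).trans_lt hc,
        fun β hβ => (hb _ ⟨β, hβ, rfl⟩).trans ((le_max_left _ _).trans_lt hc)⟩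
    choose F hF1 hF2 using hF
    let r : ℕ → Θ := fun n => Nat.rec x (fun _ y => F y) n
    have hr : ∀ n, r (n + 1) = F (r n) := fun n => rfl
    have hmono : StrictMono r := strictMono_nat_of_lt_succ fun n => by rw [hr n]; exact hF1 _
    obtain ⟨c, hc⟩ := exists_bound_of_lt_cof (s := range r)
      ((mk_range_le.trans (by simp)).trans_lt hcof)
    obtain ⟨α, hα⟩ := exists_isLUB (s := range r) ⟨c, fun a ha => (hc a ha).le⟩
    have hlt : ∀ n, r n < α := fun n =>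
      (hmono (Nat.lt_succ_self n)).trans_le (hα.1 ⟨n + 1, rfl⟩)
    refine ⟨α, ⟨⟨r 0, hlt 0⟩, fun β hβ => ?_⟩, (hlt 0).le⟩
    have hex : ∃ n, β < r n := by
      by_contra hcon
      push Not at hcon
      refine absurd hβ (not_lt.2 (hα.2 ?_))
      rintro _ ⟨n, rfl⟩
      exact hcon n
    obtain ⟨n, hn⟩ := hex
    have h1 : f β < r (n + 1) := by rw [hr n]; exact hF2 _ _ hn.le
    exact h1.trans (hlt (n + 1))

omit [WellFoundedLT Θ] [Nonempty Θ] in
/-- The family of ladders used for coding. -/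
theorem exists_ladders (hcof : ℵ₀ < Order.cof Θ) (hΘ : ℵ₀ ≤ #Θ)
    (hB : ∀ u : Θ, ∃ B : Θ → Set Θ, (∀ i, (B i).Countable) ∧
      ∀ T ⊆ Iio u, T.Countable → ∃ i, T ⊆ B i)
    {N : Set (ℕ → ℕ)} (hN : ¬ IsMeagre N) (hNc : #N ≤ #Θ)
    (a : Θ → ℕ → Θ) (ha : ∀ δ, StrictMono (a δ)) :
    ∃ (Λ : Type) (η : Λ → ℕ → Θ) (bs : Λ → Θ), #Λ ≤ #Θ ∧
      (∀ l n, a (bs l) n ≤ η l n ∧ η l n < a (bs l) (n + 1)) ∧
      ∀ (δ : Θ) (t : ℕ → Θ), (∀ n, a δ n ≤ t n ∧ t n < a δ (n + 1)) →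
        ∀ A : Set ℕ, A.Infinite → ∃ l, bs l = δ ∧ {n | n ∈ A ∧ η l n = t n}.Infinite := by
  classical
  have hu : ∀ δ, ∃ u, ∀ n, a δ n < u := by
    intro δ
    obtain ⟨c, hc⟩ := exists_bound_of_lt_cof (s := range (a δ))
      ((mk_range_le.trans (by simp)).trans_lt hcof)
    exact ⟨c, fun n => hc _ ⟨n, rfl⟩⟩
  choose u hu using hu
  have hB' : ∀ δ, ∃ B : Θ → Set Θ, (∀ i, (B i).Countable) ∧
      ∀ T ⊆ Iio (u δ), T.Countable → ∃ i, T ⊆ B i := fun δ => hB (u δ)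
  choose B hB1 hB2 using hB'
  have he : ∀ (δ : Θ) (i : Θ) (n : ℕ),
      ∃ e : ℕ → Θ, (∀ k, a δ n ≤ e k ∧ e k < a δ (n + 1)) ∧
        ∀ z ∈ B δ i, a δ n ≤ z → z < a δ (n + 1) → ∃ k, e k = z := by
    intro δ i n
    by_cases hne : (B δ i ∩ Ico (a δ n) (a δ (n + 1))).Nonempty
    · have hc : (B δ i ∩ Ico (a δ n) (a δ (n + 1))).Countable :=
        (hB1 δ i).mono inter_subset_left
      obtain ⟨e, he⟩ := hc.exists_eq_range hne
      refine ⟨e, fun k => ?_, fun z hz h1 h2 => ?_⟩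
      · have : e k ∈ B δ i ∩ Ico (a δ n) (a δ (n + 1)) := by rw [he]; exact ⟨k, rfl⟩
        exact this.2
      · have : z ∈ range e := by rw [← he]; exact ⟨hz, h1, h2⟩
        exact this
    · refine ⟨fun _ => a δ n, fun k => ⟨le_rfl, ha δ (Nat.lt_succ_self n)⟩,
        fun z hz h1 h2 => ?_⟩
      exact absurd ⟨z, hz, h1, h2⟩ hne
  choose e he1 he2 using he
  refine ⟨Θ × Θ × N, fun l n => e l.1 l.2.1 n (l.2.2.1 n),
    fun l => l.1, ?_, fun l n => he1 _ _ _ _, ?_⟩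
  · rw [mk_prod, mk_prod]
    simp only [lift_id]
    calc #Θ * (#Θ * #N) ≤ #Θ * (#Θ * #Θ) :=
          mul_le_mul' le_rfl (mul_le_mul' le_rfl hNc)
      _ = #Θ := by rw [mul_eq_self hΘ, mul_eq_self hΘ]
  · intro δ t ht A hA
    obtain ⟨i, hi⟩ := hB2 δ (range t) (by
      rintro _ ⟨n, rfl⟩
      exact (ht n).2.trans (hu δ (n + 1))) (countable_range t)
    have hk : ∀ n, ∃ k, e δ i n k = t n := fun n =>
      he2 δ i n (t n) (hi ⟨n, rfl⟩) (ht n).1 (ht n).2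
    choose k hk using hk
    obtain ⟨r, hrN, hr⟩ := exists_infinitely_equal hN k hA
    refine ⟨(δ, i, ⟨r, hrN⟩), rfl, hr.mono ?_⟩
    rintro n ⟨hnA, hn⟩
    refine ⟨hnA, ?_⟩
    change e δ i n (r n) = t n
    rw [hn]
    exact hk n

end

end Pool.Agent.CpUniv
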