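import Mathlib
import Pool.Agent.CpUniv.Decode
import Pool.Agent.CpUniv.Dense

set_option autoImplicit false

open Cardinal Order Set

namespace Pool.Agent.CpUniv

section Weight

/-- Subspaces of `ι → Bool` have weight at most `#ι` (for infinite `ι`). -/
theorem weight_subtype_le {ι : Type} [Infinite ι] (K : Set (ι → Bool)) : weight K ≤ #ι := by
  classical
  let U : Finset (ι × Bool) → Set K := fun D => {x | ∀ p ∈ D, x.1 p.1 = p.2}
  have hB : TopologicalSpace.IsTopologicalBasis (range U) := by
    apply TopologicalSpace.isTopologicalBasis_of_isOpen_of_nhds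
    · rintro _ ⟨D, rfl⟩
      have : U D = ⋂ p ∈ D, {x : K | x.1 p.1 = p.2} := by
        ext x; simp [U]
      rw [this]
      refine isOpen_biInter_finset fun p _ => ?_
      have hc : Continuous (fun x : K => x.1 p.1) :=
        (continuous_apply p.1).comp continuous_subtype_val
      exact (isOpen_discrete ({p.2} : Set Bool)).preimage hc
    · intro x u hx hu
      obtain ⟨V, hV, rfl⟩ := isOpen_induced_iff.1 hu
      rw [isOpen_pi_iff] at hV
      obtain ⟨I, v, hv, hsub⟩ := hV x.1 hx
      refine ⟨U (I.image fun i => (i, x.1 i)), ⟨_, rfl⟩, ?_, ?_⟩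
      · intro p hp
        obtain ⟨i, _, rfl⟩ := Finset.mem_image.1 hp
        rfl
      · intro y hy
        apply hsub
        intro i hi
        have : y.1 i = x.1 i := hy (i, x.1 i) (Finset.mem_image_of_mem _ hi)
        rw [this]
        exact (hv i hi).2
  refine (weight_le_of_basis hB).trans (mk_range_le.trans ?_)
  rw [mk_finset_of_infinite, mk_prod]
  simp only [lift_id]
  have h1 : ℵ₀ ≤ #ι := aleph0_le_mk ι
  have h2 : #Bool ≤ #ι := by
    refine le_trans ?_ h1
    exact (lt_aleph0_of_finite Bool).le
  exact (mul_le_mul' le_rfl h2).trans (mul_eq_self h1).le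

end Weight

section Code

variable {Θ Λ : Type} (A : Set ℕ) (η : Λ → ℕ → Θ)

open Classical in
/-- The point of the cube `2^(Θ ⊕ Λ)` coding `ζ`. -/
noncomputable def codePt (ζ : Θ) : Θ ⊕ Λ → Bool :=
  Sum.elim (fun ζ' => decide (ζ = ζ')) (fun l => decide (∃ n ∈ A, η l n = ζ))

/-- The coding space: the closure of the coding points. -/
def codeSpace : Set (Θ ⊕ Λ → Bool) := closure (range (codePt A η))

instance : CompactSpace (codeSpace A η) :=
  isCompact_iff_compactSpace.1 isClosed_closure.isCompact

/-- The point of the coding space given by `ζ`. -/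
noncomputable def codeIn (ζ : Θ) : codeSpace A η := ⟨codePt A η ζ, subset_closure ⟨ζ, rfl⟩⟩

theorem codeIn_dense : DenseRange (codeIn A η) := by
  intro x
  rw [mem_closure_iff_nhds]
  intro t ht
  rw [mem_nhds_induced] at ht
  obtain ⟨u, hu, hut⟩ := ht
  obtain ⟨y, hyu, ⟨ζ, rfl⟩⟩ := mem_closure_iff_nhds.1 x.2 u hu
  exact ⟨codeIn A η ζ, hut hyu, ⟨ζ, rfl⟩⟩

/-- The coordinate function at a coordinate of the cube. -/
noncomputable def coordFun (i : Θ ⊕ Λ) : C(codeSpace A η, ℝ) where
  toFun x := if x.1 i = true then 1 else 0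
  continuous_toFun := by
    have hc : Continuous (fun x : codeSpace A η => x.1 i) :=
      (continuous_apply i).comp continuous_subtype_val
    have hd : Continuous (fun b : Bool => if b = true then (1 : ℝ) else 0) :=
      continuous_of_discreteTopology
    exact hd.comp hc

theorem coordFun_inl (ζ ζ' : Θ) [Decidable (ζ = ζ')] :
    coordFun A η (Sum.inl ζ') (codeIn A η ζ) = if ζ = ζ' then 1 else 0 := by
  simp [coordFun, codeIn, codePt]

theorem coordFun_inr (l : Λ) (ζ : Θ) [Decidable (∃ n ∈ A, η l n = ζ)] :
    coordFun A η (Sum.inr l) (codeIn A η ζ) = if (∃ n ∈ A, η l n = ζ) then 1 else 0 := by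
  simp [coordFun, codeIn, codePt]

/-- Closed relations between finitely many continuous functions extend from the coding points. -/
theorem codeSpace_induction {p : codeSpace A η → Prop} (hp : IsClosed {x | p x})
    (h : ∀ ζ, p (codeIn A η ζ)) (x : codeSpace A η) : p x :=
  isClosed_property (codeIn_dense A η) hp h x

theorem coordFun_inl_mul {ζ ζ' : Θ} (hne : ζ ≠ ζ') (x : codeSpace A η) :
    coordFun A η (Sum.inl ζ) x * coordFun A η (Sum.inl ζ') x = 0 := by
  classical
  refine codeSpace_induction A η (p := fun x => coordFun A η (Sum.inl ζ) x *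
    coordFun A η (Sum.inl ζ') x = 0) ?_ ?_ x
  · exact isClosed_eq ((coordFun A η (Sum.inl ζ)).continuous.mul
      (coordFun A η (Sum.inl ζ')).continuous) continuous_const
  · intro z
    rw [coordFun_inl, coordFun_inl]
    by_cases h1 : z = ζ
    · have : z ≠ ζ' := fun h => hne (h1.symm.trans h)
      simp [this]
    · simp [h1]

theorem code_X1 (x : codeSpace A η) :
    {ζ : Θ | coordFun A η (Sum.inl ζ) x ≠ 0}.Finite := by
  apply Set.Subsingleton.finite
  intro ζ hζ ζ' hζ'
  by_contra hne
  have := coordFun_inl_mul A η hne x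
  rcases mul_eq_zero.1 this with h | h
  · exact hζ h
  · exact hζ' h

theorem code_h0 (ζ : Θ) : coordFun A η (Sum.inl ζ) ≠ 0 := by
  classical
  intro h
  have h1 := coordFun_inl A η ζ ζ
  rw [h] at h1
  simp at h1

theorem code_X2 [LinearOrder Θ] [NoMaxOrder Θ] [Nonempty Θ] (hcof : ℵ₀ < Order.cof Θ)
    (hη : ∀ l, StrictMono (η l)) (x : codeSpace A η) :
    ∃ b : Θ, ∀ l n, b ≤ η l n → coordFun A η (Sum.inr l) x =
      bump (fun ζ => coordFun A η (Sum.inl ζ)) (initSet A (η l) n) x := by
  classical
  by_cases hex : ∃ l₀ n₀, coordFun A η (Sum.inr l₀) x -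
      bump (fun ζ => coordFun A η (Sum.inl ζ)) (initSet A (η l₀) n₀) x ≠ 0
  · obtain ⟨l₀, n₀, h₀⟩ := hex
    obtain ⟨b, hb⟩ := exists_bound_of_lt_cof (s := range (η l₀))
      ((mk_range_le.trans (by simp)).trans_lt hcof)
    refine ⟨b, fun l n hbn => ?_⟩
    have key : (coordFun A η (Sum.inr l₀) x -
        bump (fun ζ => coordFun A η (Sum.inl ζ)) (initSet A (η l₀) n₀) x) *
        (coordFun A η (Sum.inr l) x -
        bump (fun ζ => coordFun A η (Sum.inl ζ)) (initSet A (η l) n) x) = 0 := by
      refine codeSpace_induction A η (p := fun x => (coordFun A η (Sum.inr l₀) x -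
        bump (fun ζ => coordFun A η (Sum.inl ζ)) (initSet A (η l₀) n₀) x) *
        (coordFun A η (Sum.inr l) x -
        bump (fun ζ => coordFun A η (Sum.inl ζ)) (initSet A (η l) n) x) = 0) ?_ ?_ x
      · refine isClosed_eq ?_ continuous_const
        exact ((coordFun A η (Sum.inr l₀)).continuous.sub
          (bump (fun ζ => coordFun A η (Sum.inl ζ)) (initSet A (η l₀) n₀)).continuous).mul
          ((coordFun A η (Sum.inr l)).continuous.sub
          (bump (fun ζ => coordFun A η (Sum.inl ζ)) (initSet A (η l) n)).continuous)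
      · intro z
        have hb1 : ∀ s : Finset Θ, bump (fun ζ => coordFun A η (Sum.inl ζ)) s (codeIn A η z) =
            if z ∈ s then 1 else 0 := by
          intro s
          rw [bump_apply]
          simp_rw [coordFun_inl]
          simp
        rw [hb1, hb1, coordFun_inr, coordFun_inr]
        by_cases hz : z < b
        · -- the second factor vanishes
          have hiff : (∃ k ∈ A, η l k = z) ↔ z ∈ initSet A (η l) n := by
            rw [mem_initSet]
            constructor
            · rintro ⟨k, hk, rfl⟩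
              exact ⟨k, (hη l).lt_iff_lt.1 (hz.trans_le hbn), hk, rfl⟩
            · rintro ⟨k, _, hk, rfl⟩
              exact ⟨k, hk, rfl⟩
          simp only [hiff, sub_self, mul_zero]
        · -- the first factor vanishes
          have h1 : ¬ ∃ k ∈ A, η l₀ k = z := by
            rintro ⟨k, _, rfl⟩
            exact hz (hb _ ⟨k, rfl⟩)
          have h2 : z ∉ initSet A (η l₀) n₀ := by
            rw [mem_initSet]
            rintro ⟨k, _, hk, hkz⟩
            exact h1 ⟨k, hk, hkz⟩
          rw [if_neg h1, if_neg h2]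
          simp
    rcases mul_eq_zero.1 key with h | h
    · exact absurd h h₀
    · linarith
  · push Not at hex
    obtain ⟨b0⟩ := (inferInstance : Nonempty Θ)
    exact ⟨b0, fun l n _ => by linarith [hex l n]⟩

end Code

end Pool.Agent.CpUniv
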