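import Mathlib
import Pool.Agent.CpUniv.Basic
import Pool.Agent.CpUniv.Dense
import Pool.Agent.CpUniv.Club
import Pool.Agent.CpUniv.Comb
import Pool.Agent.CpUniv.Decode
import Pool.Agent.CpUniv.Jump
import Pool.Agent.CpUniv.Space
import Pool.Agent.CpUniv.Ladder

set_option autoImplicit false

open Cardinal Order Set

namespace Pool.Agent.CpUniv

/-- Enumerations of subsets of a norm-dense set, few in number. -/
theorem exists_enumerations {W : Type} [TopologicalSpace W] {Θ : Type} [Nonempty Θ]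
    {κ : Cardinal.{0}} (G : Set C(W, ℝ)) (hG : #G ≤ κ) :
    ∃ (P : Type) (E : P → Θ → C(W, ℝ)), #P = cofSub κ #Θ ∧
      ∀ Q ⊆ G, #Q ≤ #Θ → ∃ p, ∀ u ∈ Q, ∃ β, E p β = u := by
  classical
  obtain ⟨P, F, hP, hF1, hF2⟩ := exists_cover (lam := #Θ) G hG
  have hE : ∀ p : P, ∃ e : Θ → C(W, ℝ), ∀ u ∈ F p, ∃ β, e β = u := by
    intro p
    rcases (F p).eq_empty_or_nonempty with hemp | hne
    · exact ⟨fun _ => 0, fun u hu => by rw [hemp] at hu; exact hu.elim⟩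
    · obtain ⟨j⟩ := hF1 p
      have : Nonempty (F p) := hne.to_subtype
      refine ⟨fun β => (Function.invFun j β : F p), fun u hu => ⟨j ⟨u, hu⟩, ?_⟩⟩
      dsimp only
      rw [Function.leftInverse_invFun j.injective]
  choose E hE using hE
  refine ⟨P, E, hP, fun Q hQ hQc => ?_⟩
  obtain ⟨p, hp⟩ := hF2 Q hQ hQc
  exact ⟨p, fun u hu => hE p u (hp hu)⟩

/-- Shift a guessing family so that all its terms have predecessors. -/
theorem exists_guess {Θ : Type} [LinearOrder Θ] [WellFoundedLT Θ] [NoMaxOrder Θ]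
    (hcof : ℵ₀ < Order.cof Θ) (hIio : ∀ a : Θ, #(Iio a) < Order.cof Θ) (hCG : ClubGuessing Θ) :
    ∃ a : Θ → ℕ → Θ, (∀ δ, StrictMono (a δ)) ∧
      ∀ f : Θ → Θ, ∃ δ, ∀ n, (∃ β, β < a δ n) ∧ ∀ β < a δ n, f β < a δ n := by
  obtain ⟨L, hL1, hL2⟩ := hCG
  exact ⟨L, hL1, fun f => hL2 _ (isClub_closurePoints hcof hIio f)⟩

/-- **Main theorem** (nonlinear version). -/
theorem no_injection {θ κ : Cardinal.{0}} (hreg : θ.IsRegular) (h0 : ℵ₀ < θ)
    (hθc : θ < 𝔠) (hcov : cofSub κ θ < 𝔠) (hcnt : ∀ μ < θ, cofSub μ ℵ₀ ≤ θ)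
    (hCG : ClubGuessing θ.ord.ToType) (hN : ∃ N : Set (ℕ → ℕ), ¬ IsMeagre N ∧ #N ≤ θ)
    (hκ : ℵ₀ ≤ κ) (W : Type) [TopologicalSpace W] [CompactSpace W] (hW : weight W ≤ κ) :
    ∃ (X : Type) (_ : TopologicalSpace X), CompactSpace X ∧ T2Space X ∧ weight X ≤ θ ∧
      ∀ φ : C(X, ℝ) → C(W, ℝ), IsCpContinuous φ → ¬ Function.Injective φ := by
  classical
  obtain ⟨Θ, iΘ, iwf, hno, hne, hmk, hcofΘ, hIio, hCG⟩ : ∃ (Θ : Type) (_ : LinearOrder Θ)
      (_ : WellFoundedLT Θ), NoMaxOrder Θ ∧ Nonempty Θ ∧ #Θ = θ ∧ Order.cof Θ = θ ∧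
      (∀ a : Θ, #(Iio a) < θ) ∧ ClubGuessing Θ := by
    refine ⟨θ.ord.ToType, inferInstance, inferInstance, Cardinal.noMaxOrder h0.le,
      nonempty_ord_toType hreg.ne_zero, mk_ord_toType θ, ?_, fun a => mk_Iio_toType_ord_lt a, hCG⟩
    rw [Ordinal.cof_toType]
    exact hreg.cof_ord
  have hcof : ℵ₀ < Order.cof Θ := by rw [hcofΘ]; exact h0
  have hIio' : ∀ a : Θ, #(Iio a) < Order.cof Θ := by rw [hcofΘ]; exact hIio
  obtain ⟨a, ha, hguess⟩ := exists_guess hcof hIio' hCG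
  obtain ⟨N, hN1, hN2⟩ := hN
  have hB : ∀ u : Θ, ∃ B : Θ → Set Θ, (∀ i, (B i).Countable) ∧
      ∀ T ⊆ Iio u, T.Countable → ∃ i, T ⊆ B i := by
    intro u
    obtain ⟨P, F, hP, hF1, hF2⟩ := exists_cover (lam := ℵ₀) (Iio u) (le_refl #(Iio u))
    have h1 : #P ≤ #Θ := by
      rw [hP, hmk]
      exact hcnt _ (hIio u)
    obtain ⟨j⟩ := h1
    obtain ⟨p0, _⟩ := hF2 ∅ (empty_subset _) (by simp)
    have : Nonempty P := ⟨p0⟩
    refine ⟨fun i => F (Function.invFun j i), fun i => ?_, fun T hT hTc => ?_⟩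
    · exact le_aleph0_iff_set_countable.1 (hF1 _)
    · obtain ⟨p, hp⟩ := hF2 T hT (le_aleph0_iff_set_countable.2 hTc)
      refine ⟨j p, ?_⟩
      dsimp only
      rw [Function.leftInverse_invFun j.injective]
      exact hp
  obtain ⟨Λ, η, bs, hΛ, hη1, hη2⟩ := exists_ladders hcof (by rw [hmk]; exact h0.le) hB hN1
    (by rw [hmk]; exact hN2) a ha
  have hηmono : ∀ l, StrictMono (η l) := by
    intro l
    apply strictMono_nat_of_lt_succ
    intro n
    exact (hη1 l n).2.trans_le (hη1 l (n + 1)).1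
  have hinfΘ : Infinite Θ := by
    rw [infinite_iff, hmk]; exact h0.le
  rcases isEmpty_or_nonempty W with hWe | hWne
  · -- degenerate case: `W` empty
    refine ⟨codeSpace (univ : Set ℕ) η, inferInstance, inferInstance, inferInstance, ?_, ?_⟩
    · refine (weight_subtype_le _).trans ?_
      rw [mk_sum]
      simp only [lift_id]
      rw [hmk]
      rw [hmk] at hΛ
      exact (add_le_add le_rfl hΛ).trans (add_eq_self h0.le).le
    · intro φ _ hinj
      obtain ⟨ζ⟩ := hne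
      apply code_h0 (univ : Set ℕ) η ζ
      apply hinj
      exact Subsingleton.elim _ _
  obtain ⟨G, hG1, hG2⟩ := exists_dense_family hκ hW
  obtain ⟨P, E, hP, hE⟩ := exists_enumerations (Θ := Θ) G hG1
  rw [hmk] at hP
  choose wpt hwpt using fun g g' : C(W, ℝ) => exists_norm_attained g g'
  -- the diagonalisation
  have hJ : #(P × Θ × ℕ × Θ) < 𝔠 := by
    rw [mk_prod, mk_prod, mk_prod]
    simp only [lift_id, mk_nat]
    rw [hP, hmk]
    have hc0 : ℵ₀ ≤ 𝔠 := aleph0_le_continuum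
    exact mul_lt_of_lt hc0 hcov (mul_lt_of_lt hc0 hθc (mul_lt_of_lt hc0 aleph0_lt_continuum hθc))
  obtain ⟨A, hA, hAbad⟩ := exists_infinite_avoiding hJ
    (fun j => invSet wpt (E j.1) j.2.1 (1 / ((j.2.2.1 : ℝ) + 1)) (a j.2.2.2))
  refine ⟨codeSpace A η, inferInstance, inferInstance, inferInstance, ?_, ?_⟩
  · refine (weight_subtype_le _).trans ?_
    rw [mk_sum]
    simp only [lift_id]
    rw [hmk]
    rw [hmk] at hΛ
    exact (add_le_add le_rfl hΛ).trans (add_eq_self h0.le).le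
  intro φ hφ hinj
  obtain ⟨m, ρ, zs, hzs, hjump⟩ := exists_jump hcof hφ hinj
    (fun ζ => coordFun A η (Sum.inl ζ)) (code_X1 A η) (code_h0 A η)
  set ε : ℝ := 1 / ((m : ℝ) + 1) with hε
  have hεpos : 0 < ε := by positivity
  -- approximations
  choose u hu1 hu2 using fun s : Finset Θ =>
    hG2 (φ (bump (fun ζ => coordFun A η (Sum.inl ζ)) s)) (ε / 4) (by positivity)
  choose v hv1 hv2 using fun l : Λ => hG2 (φ (coordFun A η (Sum.inr l))) (ε / 4) (by positivity)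
  obtain ⟨p, hp⟩ := hE (range u ∪ range v) (by
      rintro _ (⟨s, rfl⟩ | ⟨l, rfl⟩)
      · exact hu1 s
      · exact hv1 l) (by
      refine (mk_union_le _ _).trans ?_
      have h1 : #(range u) ≤ #Θ := mk_range_le.trans (by rw [mk_finset_of_infinite])
      have h2 : #(range v) ≤ #Θ := mk_range_le.trans hΛ
      exact (add_le_add h1 h2).trans (add_eq_self (aleph0_le_mk Θ)).le)
  refine decode hcof hIio' hφ (fun ζ => coordFun A η (Sum.inl ζ))
    (fun l => coordFun A η (Sum.inr l)) η A (code_X1 A η) (code_X2 A η hcof hηmono)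
    wpt hwpt (E p) hεpos ?_ ?_ ρ zs hjump a ha hguess ?_ ?_
  · intro s
    obtain ⟨β, hβ⟩ := hp (u s) (Or.inl ⟨s, rfl⟩)
    exact ⟨β, by rw [hβ]; exact hu2 s⟩
  · intro l
    obtain ⟨β, hβ⟩ := hp (v l) (Or.inr ⟨l, rfl⟩)
    exact ⟨β, by rw [hβ]; exact hv2 l⟩
  · intro δ hδ
    obtain ⟨l, hl1, hl2⟩ := hη2 δ (fun n => zs (a δ n)) (fun n => ⟨hzs _, hδ n⟩) A hA
    refine ⟨l, fun n => ?_, hl2⟩
    have := hη1 l n
    rwa [hl1] at this
  · intro β₀ δ hinf
    exact hAbad (p, β₀, m, δ) hinf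

end Pool.Agent.CpUniv
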