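import Mathlib
import Pool.Agent.CpUniv.Main

set_option autoImplicit false

open Cardinal Order Set Topology

namespace Pool.Agent.CpUniv

/-- For a linear embedding of `C_p(X)` in `C_p(W)`, evaluation at a point is bounded by the norm
of the image. -/
theorem exists_bound_eval {X W : Type} [TopologicalSpace X] [TopologicalSpace W]
    [CompactSpace W] {T : C(X, ℝ) →ₗ[ℝ] C(W, ℝ)} (hT : IsCpEmbedding (T : C(X, ℝ) → C(W, ℝ)))
    (x : X) : ∃ m : ℕ, ∀ f : C(X, ℝ), |f x| ≤ m * ‖T f‖ := by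
  classical
  let _ := cpTopology X
  let _ := cpTopology W
  have hev : Continuous (fun f : C(X, ℝ) => f x) := by
    have h1 : Continuous (fun f : C(X, ℝ) => (f : X → ℝ)) := continuous_induced_dom
    exact (continuous_apply x).comp h1
  have hU : {f : C(X, ℝ) | |f x| < 1} ∈ nhds (0 : C(X, ℝ)) := by
    have := (Metric.continuous_iff'.1 hev) 0 1 one_pos
    filter_upwards [this] with f hf
    simpa [Real.dist_eq] using hf
  have hT' : @Topology.IsInducing C(X, ℝ) C(W, ℝ) (cpTopology X) (cpTopology W) T := hT.1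
  rw [hT'.nhds_eq_comap, Filter.mem_comap] at hU
  obtain ⟨V, hV, hVU⟩ := hU
  have hn : nhds (T 0) = Filter.comap (fun f : C(W, ℝ) => (f : W → ℝ)) (nhds (T 0 : W → ℝ)) :=
    nhds_induced _ _
  rw [hn, Filter.mem_comap] at hV
  obtain ⟨V', hV', hVV'⟩ := hV
  rw [nhds_pi, Filter.mem_pi] at hV'
  obtain ⟨I, hI, t, ht, hsub⟩ := hV'
  have hr : ∀ w, ∃ r > 0, Metric.ball (0 : ℝ) r ⊆ t w := by
    intro w
    have := ht w
    rw [map_zero] at this
    exact Metric.mem_nhds_iff.1 this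
  choose r hr1 hr2 using hr
  have hmin : ∃ r0 > 0, ∀ w ∈ I, r0 ≤ r w := by
    rcases hI.toFinset.eq_empty_or_nonempty with hemp | hne
    · refine ⟨1, one_pos, fun w hw => ?_⟩
      have : w ∈ hI.toFinset := hI.mem_toFinset.2 hw
      rw [hemp] at this
      simp at this
    · obtain ⟨w0, hw0, hw0'⟩ := hI.toFinset.exists_min_image r hne
      exact ⟨r w0, hr1 w0, fun w hw => hw0' w (hI.mem_toFinset.2 hw)⟩
  obtain ⟨r0, hr0, hr0'⟩ := hmin
  have key : ∀ f : C(X, ℝ), ‖T f‖ < r0 → |f x| < 1 := by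
    intro f hf
    have h1 : f ∈ T ⁻¹' V := by
      apply hVV'
      apply hsub
      intro w hw
      apply hr2 w
      rw [Metric.mem_ball, dist_zero_right]
      exact (((T f).norm_coe_le_norm w).trans_lt hf).trans_le (hr0' w hw)
    exact hVU h1
  obtain ⟨m, hm⟩ := exists_nat_gt (2 / r0)
  refine ⟨m, fun f => ?_⟩
  rcases eq_or_ne (T f) 0 with h0 | h0
  · have hf0 : f = 0 := by
      have hinj : Function.Injective T := hT.injective
      exact hinj (by rw [h0, map_zero])
    simp [hf0]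
  · have hpos : 0 < ‖T f‖ := norm_pos_iff.2 h0
    have h1 : ‖T ((r0 / 2 / ‖T f‖) • f)‖ < r0 := by
      rw [map_smul, norm_smul, Real.norm_of_nonneg (by positivity)]
      rw [div_mul_cancel₀ _ hpos.ne']
      linarith
    have h2 := key _ h1
    simp only [ContinuousMap.coe_smul, Pi.smul_apply, smul_eq_mul, abs_mul] at h2
    rw [abs_of_pos (by positivity : (0 : ℝ) < r0 / 2 / ‖T f‖)] at h2
    have h3 : |f x| ≤ (2 / r0) * ‖T f‖ := by
      have h4 : r0 / 2 / ‖T f‖ * |f x| * (2 / r0 * ‖T f‖) < 1 * (2 / r0 * ‖T f‖) :=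
        mul_lt_mul_of_pos_right h2 (by positivity)
      have h5 : r0 / 2 / ‖T f‖ * |f x| * (2 / r0 * ‖T f‖) = |f x| := by
        field_simp
      rw [h5, one_mul] at h4
      exact h4.le
    calc |f x| ≤ (2 / r0) * ‖T f‖ := h3
      _ ≤ m * ‖T f‖ := mul_le_mul_of_nonneg_right hm.le hpos.le

section Power

variable {Θ Λ : Type} (A : Set ℕ) (η : Λ → ℕ → Θ)

/-- The countable power of the coding space, as a subspace of a cube. -/
def powSpace : Set (ℕ × (Θ ⊕ Λ) → Bool) := {x | ∀ k, (fun i => x (k, i)) ∈ codeSpace A η}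

theorem isClosed_powSpace : IsClosed (powSpace A η) := by
  have : powSpace A η = ⋂ k : ℕ, (fun x : ℕ × (Θ ⊕ Λ) → Bool => fun i => x (k, i)) ⁻¹'
      codeSpace A η := by
    ext x; simp [powSpace]
  rw [this]
  refine isClosed_iInter fun k => ?_
  refine IsClosed.preimage ?_ isClosed_closure
  exact continuous_pi fun i => continuous_apply (k, i)

instance : CompactSpace (powSpace A η) :=
  isCompact_iff_compactSpace.1 (isClosed_powSpace A η).isCompact

/-- The `k`-th projection of the power. -/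
def powProj (k : ℕ) (x : powSpace A η) : codeSpace A η := ⟨fun i => x.1 (k, i), x.2 k⟩

theorem continuous_powProj (k : ℕ) : Continuous (powProj A η k) := by
  refine Continuous.subtype_mk ?_ _
  exact continuous_pi fun i => (continuous_apply (k, i)).comp continuous_subtype_val

open Classical in
/-- Replace the `k`-th coordinate. -/
noncomputable def powUpdate (k : ℕ) (y : codeSpace A η) (x : powSpace A η) : powSpace A η :=
  ⟨fun p => if p.1 = k then y.1 p.2 else x.1 p, by
    intro j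
    by_cases hj : j = k
    · subst hj
      simpa using y.2
    · simpa [hj] using x.2 j⟩

theorem powProj_powUpdate (k : ℕ) (y : codeSpace A η) (x : powSpace A η) :
    powProj A η k (powUpdate A η k y x) = y := by
  apply Subtype.ext
  funext i
  simp [powProj, powUpdate]

open Classical in
/-- The indicator of a clopen cylinder. -/
noncomputable def cylFun (D : Finset (ℕ × (Θ ⊕ Λ))) (x₀ : powSpace A η) :
    C(powSpace A η, ℝ) where
  toFun x := if ∀ p ∈ D, x.1 p = x₀.1 p then 1 else 0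
  continuous_toFun := by
    have hcl : IsClopen {x : powSpace A η | ∀ p ∈ D, x.1 p = x₀.1 p} := by
      have : {x : powSpace A η | ∀ p ∈ D, x.1 p = x₀.1 p} =
          ⋂ p ∈ D, (fun x : powSpace A η => x.1 p) ⁻¹' {x₀.1 p} := by
        ext x; simp
      rw [this]
      refine isClopen_biInter_finset fun p _ => ?_
      refine IsClopen.preimage (isClopen_discrete _) ?_
      exact (continuous_apply p).comp continuous_subtype_val
    exact continuous_const.if (by
      intro a ha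
      rw [hcl.frontier_eq] at ha
      exact ha.elim) continuous_const

end Power

/-- **Main theorem** (linear version). -/
theorem no_linear_embedding {θ κ : Cardinal.{0}} (hreg : θ.IsRegular) (h0 : ℵ₀ < θ)
    (hθc : θ < 𝔠) (hcov : cofSub κ θ < 𝔠) (hCG : ClubGuessing θ.ord.ToType)
    (hκ : ℵ₀ ≤ κ) (W : Type) [TopologicalSpace W] [CompactSpace W] (hW : weight W ≤ κ) :
    ∃ (X : Type) (_ : TopologicalSpace X), CompactSpace X ∧ T2Space X ∧ weight X ≤ θ ∧
      ∀ T : C(X, ℝ) →ₗ[ℝ] C(W, ℝ), ¬ IsCpEmbedding (T : C(X, ℝ) → C(W, ℝ)) := by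
  classical
  obtain ⟨Θ, iΘ, iwf, hno, hne, hmk, hcofΘ, hIio, hCG⟩ : ∃ (Θ : Type) (_ : LinearOrder Θ)
      (_ : WellFoundedLT Θ), NoMaxOrder Θ ∧ Nonempty Θ ∧ #Θ = θ ∧ Order.cof Θ = θ ∧
      (∀ a : Θ, #(Iio a) < θ) ∧ ClubGuessing Θ := by
    refine ⟨θ.ord.ToType, inferInstance, inferInstance, Cardinal.noMaxOrder h0.le,
      nonempty_ord_toType hreg.ne_zero, mk_ord_toType θ, ?_, fun a => mk_Iio_toType_ord_lt a, hCG⟩
    rw [Ordinal.cof_toType]
    exact hreg.cof_ord
  have hcof : ℵ₀ < Order.cof Θ := by rw [hcofΘ]; exact h0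
  have hIio' : ∀ a : Θ, #(Iio a) < Order.cof Θ := by rw [hcofΘ]; exact hIio
  obtain ⟨a, ha, hguess⟩ := exists_guess hcof hIio' hCG
  have hinfΘ : Infinite Θ := by
    rw [infinite_iff, hmk]; exact h0.le
  have hwt : ∀ A : Set ℕ, weight (powSpace A a) ≤ θ := by
    intro A
    refine (weight_subtype_le _).trans ?_
    rw [mk_prod, mk_sum]
    simp only [lift_id, mk_nat]
    rw [hmk, add_eq_self h0.le]
    exact (mul_le_mul' h0.le le_rfl).trans (mul_eq_self h0.le).le
  rcases isEmpty_or_nonempty W with hWe | hWne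
  · -- degenerate case: `W` empty
    refine ⟨codeSpace (Set.univ : Set ℕ) a, inferInstance, inferInstance, inferInstance, ?_, ?_⟩
    · refine (weight_subtype_le _).trans ?_
      rw [mk_sum]
      simp only [lift_id]
      rw [hmk, add_eq_self h0.le]
    · intro T hT
      obtain ⟨ζ⟩ := hne
      have hinj : Function.Injective T := hT.injective
      apply code_h0 (Set.univ : Set ℕ) a ζ
      apply hinj
      exact Subsingleton.elim _ _
  obtain ⟨G, hG1, hG2⟩ := exists_dense_family hκ hW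
  obtain ⟨P, E, hP, hE⟩ := exists_enumerations (Θ := Θ) G hG1
  rw [hmk] at hP
  choose wpt hwpt using fun g g' : C(W, ℝ) => exists_norm_attained g g'
  -- the diagonalisation
  have hJ : #(P × Θ × ℕ × Θ) < 𝔠 := by
    rw [mk_prod, mk_prod, mk_prod]
    simp only [lift_id, mk_nat]
    rw [hP, hmk]
    have hc0 : ℵ₀ ≤ 𝔠 := aleph0_le_continuum
    exact mul_lt_of_lt hc0 hcov (mul_lt_of_lt hc0 hθc (mul_lt_of_lt hc0 aleph0_lt_continuum hθc))
  obtain ⟨A, hA, hAbad⟩ := exists_infinite_avoiding hJ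
    (fun j => invSet wpt (E j.1) j.2.1 (1 / ((j.2.2.1 : ℝ) + 1)) (a j.2.2.2))
  refine ⟨powSpace A a, inferInstance, inferInstance, inferInstance, hwt A, ?_⟩
  intro T hT
  have hTc : IsCpContinuous (T : C(powSpace A a, ℝ) → C(W, ℝ)) := hT.continuous
  -- Baire category
  obtain ⟨z0⟩ := hne
  have hneX : Nonempty (powSpace A a) :=
    ⟨⟨fun p => (codeIn A a z0).1 p.2, fun k => (codeIn A a z0).2⟩⟩
  let Xm : ℕ → Set (powSpace A a) := fun m => {x | ∀ f : C(powSpace A a, ℝ), |f x| ≤ m * ‖T f‖}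
  have hXm1 : ∀ m, IsClosed (Xm m) := by
    intro m
    have : Xm m = ⋂ f : C(powSpace A a, ℝ), {x | |f x| ≤ m * ‖T f‖} := by
      ext x; simp [Xm]
    rw [this]
    exact isClosed_iInter fun f =>
      isClosed_le (continuous_abs.comp f.continuous) continuous_const
  have hXm2 : ⋃ m, Xm m = Set.univ := by
    rw [eq_univ_iff_forall]
    intro x
    obtain ⟨m, hm⟩ := exists_bound_eval hT x
    exact mem_iUnion.2 ⟨m, hm⟩
  obtain ⟨m, x₀, hx₀⟩ := nonempty_interior_of_iUnion_of_closed hXm1 hXm2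
  -- a basic clopen set inside `Xm m`
  obtain ⟨V, hVsub, hVopen, hxV⟩ := mem_interior.1 hx₀
  obtain ⟨V', hV', hVV'⟩ := isOpen_induced_iff.1 hVopen
  rw [isOpen_pi_iff] at hV'
  obtain ⟨D, v, hv, hsub⟩ := hV' x₀.1 (by rw [← hVV'] at hxV; exact hxV)
  obtain ⟨k0, hk0⟩ : ∃ k0 : ℕ, ∀ p ∈ D, p.1 ≠ k0 := by
    refine ⟨(D.image Prod.fst).sup id + 1, fun p hp h => ?_⟩
    have : p.1 ≤ (D.image Prod.fst).sup id :=
      Finset.le_sup (f := id) (Finset.mem_image_of_mem _ hp)
    omega
  let J : C(codeSpace A a, ℝ) → C(powSpace A a, ℝ) := fun f =>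
    cylFun A a D x₀ * f.comp ⟨powProj A a k0, continuous_powProj A a k0⟩
  have hJapp : ∀ f x, J f x = cylFun A a D x₀ x * f (powProj A a k0 x) := fun f x => rfl
  let h : Θ → C(powSpace A a, ℝ) := fun ζ => J (coordFun A a (Sum.inl ζ))
  let H : Θ → C(powSpace A a, ℝ) := fun l => J (coordFun A a (Sum.inr l))
  have hbump : ∀ (s : Finset Θ) (x : powSpace A a), bump h s x =
      cylFun A a D x₀ x * bump (fun ζ => coordFun A a (Sum.inl ζ)) s (powProj A a k0 x) := by
    intro s x
    rw [bump_apply, bump_apply, Finset.mul_sum]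
    rfl
  have hX1 : ∀ x, {ζ | h ζ x ≠ 0}.Finite := by
    intro x
    refine (code_X1 A a (powProj A a k0 x)).subset ?_
    intro ζ hζ h0
    apply hζ
    change J (coordFun A a (Sum.inl ζ)) x = 0
    rw [hJapp, h0, mul_zero]
  have hX2 : ∀ x, ∃ b : Θ, ∀ l n, b ≤ a l n → H l x = bump h (initSet A (a l) n) x := by
    intro x
    obtain ⟨b, hb⟩ := code_X2 A a hcof ha (powProj A a k0 x)
    refine ⟨b, fun l n hln => ?_⟩
    rw [hbump, ← hb l n hln]
    exact hJapp _ _
  have hJnorm : ∀ ζ, (1 : ℝ) ≤ m * ‖T (h ζ)‖ := by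
    intro ζ
    let x1 := powUpdate A a k0 (codeIn A a ζ) x₀
    have hx1 : ∀ p ∈ D, x1.1 p = x₀.1 p := by
      intro p hp
      simp only [x1, powUpdate]
      rw [if_neg (hk0 p hp)]
    have hx1V : x1 ∈ Xm m := by
      apply hVsub
      rw [← hVV']
      apply hsub
      intro p hp
      rw [hx1 p hp]
      exact (hv p hp).2
    have h1 := hx1V (h ζ)
    have h2 : h ζ x1 = 1 := by
      change J (coordFun A a (Sum.inl ζ)) x1 = 1
      rw [hJapp, powProj_powUpdate, coordFun_inl, if_pos rfl, mul_one]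
      change (if ∀ p ∈ D, x1.1 p = x₀.1 p then (1 : ℝ) else 0) = 1
      rw [if_pos hx1]
    rw [h2] at h1
    simpa using h1
  have hmpos : (0 : ℝ) < m := by
    by_contra hm0
    have : (m : ℝ) = 0 := le_antisymm (not_lt.1 hm0) (Nat.cast_nonneg m)
    have h1 := hJnorm z0
    rw [this, zero_mul] at h1
    linarith
  set ε : ℝ := 1 / (((4 * m : ℕ) : ℝ) + 1) with hε
  have hεpos : 0 < ε := by positivity
  have hjump : ∀ α : Θ, ∀ s : Finset Θ, (∀ ζ ∈ s, z0 ≤ ζ ∧ ζ < α) →
      4 * ε < ‖T (bump h s + h (id α)) - T (bump h s)‖ := by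
    intro α s _
    rw [map_add, add_sub_cancel_left, id]
    have h1 := hJnorm α
    have h2 : 1 / (m : ℝ) ≤ ‖T (h α)‖ := by
      rw [div_le_iff₀ hmpos]
      linarith [mul_comm (m : ℝ) ‖T (h α)‖]
    refine lt_of_lt_of_le ?_ h2
    rw [hε]
    push_cast
    rw [mul_one_div, div_lt_div_iff₀ (by positivity) hmpos]
    linarith
  -- approximations
  choose u hu1 hu2 using fun s : Finset Θ => hG2 (T (bump h s)) (ε / 4) (by positivity)
  choose v hv1 hv2 using fun l : Θ => hG2 (T (H l)) (ε / 4) (by positivity)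
  obtain ⟨p, hp⟩ := hE (range u ∪ range v) (by
      rintro _ (⟨s, rfl⟩ | ⟨l, rfl⟩)
      · exact hu1 s
      · exact hv1 l) (by
      refine (mk_union_le _ _).trans ?_
      have h1 : #(range u) ≤ #Θ := mk_range_le.trans (by rw [mk_finset_of_infinite])
      have h2 : #(range v) ≤ #Θ := mk_range_le
      exact (add_le_add h1 h2).trans (add_eq_self (aleph0_le_mk Θ)).le)
  refine decode hcof hIio' hTc h H a A hX1 hX2
    wpt hwpt (E p) hεpos ?_ ?_ z0 id hjump a ha hguess ?_ ?_
  · intro s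
    obtain ⟨β, hβ⟩ := hp (u s) (Or.inl ⟨s, rfl⟩)
    exact ⟨β, by rw [hβ]; exact hu2 s⟩
  · intro l
    obtain ⟨β, hβ⟩ := hp (v l) (Or.inr ⟨l, rfl⟩)
    exact ⟨β, by rw [hβ]; exact hv2 l⟩
  · intro δ _
    refine ⟨δ, fun n => ⟨le_rfl, ha δ (Nat.lt_succ_self n)⟩, ?_⟩
    simpa using hA
  · intro β₀ δ hinf
    exact hAbad (p, β₀, 4 * m, δ) hinf

end Pool.Agent.CpUniv
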